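import Mathlib

/-!
Counterexample to the dimension conjecture (MP_2c9d0b_al): the differential
polynomial system, and valued differential fields.
-/

set_option autoImplicit false

namespace Pool.Agent.Helper26.DC

/-- A differential field with a multiplicative ultrametric size function such that the derivation
loses at most a factor two and nonzero naturals have size one. -/
structure VDF {L : Type*} [Field L] (D : Derivation ℤ L L) (v : L → ℝ) : Prop where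
  nonneg : ∀ a, 0 ≤ v a
  map_zero : v 0 = 0
  map_one : v 1 = 1
  pos : ∀ a, a ≠ 0 → 0 < v a
  mul : ∀ a b, v (a * b) = v a * v b
  add : ∀ a b, v (a + b) ≤ max (v a) (v b)
  der : ∀ a, v (D a) ≤ 2 * v a
  nat : ∀ n : ℕ, n ≠ 0 → v (n : L) = 1

section Poly

variable {R : Type*} [CommRing R]

/-- Wronskian of two elements with given derivatives. -/
def W (a b a' b' : R) : R := a * b' - b * a'

/-- First cubic form. -/
def hh0 (s a b : R) : R :=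
  s ^ 6 * b ^ 3 + 6 * s ^ 5 * (a * b ^ 2) + 15 * s ^ 4 * (a ^ 2 * b) + 20 * s ^ 3 * a ^ 3

/-- Second cubic form. -/
def hh1 (s a b : R) : R :=
  -(15 * s ^ 2 * (a * b ^ 2) + 6 * s * (a ^ 2 * b) + a ^ 3)

/-- The polynomial sum of p_i th^i E^(10-i) T^(i-1) for i = 1..6, p_i = binomial (6+i,6). -/
def GG (th E T : R) : R :=
  7 * th * E ^ 9 + 28 * th ^ 2 * (E ^ 8 * T) + 84 * th ^ 3 * (E ^ 7 * T ^ 2)
    + 210 * th ^ 4 * (E ^ 6 * T ^ 3) + 462 * th ^ 5 * (E ^ 5 * T ^ 4)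
    + 924 * th ^ 6 * (E ^ 4 * T ^ 5)

/-- The form sum of p_i A^i E^(6-i). -/
def SS (E A : R) : R :=
  E ^ 6 + 7 * (A * E ^ 5) + 28 * (A ^ 2 * E ^ 4) + 84 * (A ^ 3 * E ^ 3)
    + 210 * (A ^ 4 * E ^ 2) + 462 * (A ^ 5 * E) + 924 * A ^ 6

/-- The constant theta. -/
def th (s : R) : R := s ^ 2 * (1 - s) ^ 2

/-- `Ua0`. -/
def Ua0 (s z1 z2 z3 z1' z2' z3' : R) : R :=
  (-(z1 * W z2 z3 z2' z3')) ^ 3 - hh0 s (z1 ^ 21) (z2 ^ 21)
    - hh0 s (-(z1 * W z2 z3 z2' z3')) (z2 * W z1 z3 z1' z3')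
      * GG (th s) ((z1 * z2 * z3) ^ 2)
          (-(W z1 z2 z1' z2' * W z1 z3 z1' z3' * W z2 z3 z2' z3'))

/-- `Ua1`. -/
def Ua1 (s z1 z2 z3 z1' z2' z3' : R) : R :=
  (z2 * W z1 z3 z1' z3') ^ 3 - hh1 s (z1 ^ 21) (z2 ^ 21)
    - hh1 s (-(z1 * W z2 z3 z2' z3')) (z2 * W z1 z3 z1' z3')
      * GG (th s) ((z1 * z2 * z3) ^ 2)
          (-(W z1 z2 z1' z2' * W z1 z3 z1' z3' * W z2 z3 z2' z3'))

/-- `Ub0`. -/
def Ub0 (s y1 y2 y3 y4 y2' y3' y4' : R) : R :=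
  s ^ 2 * (y2 * y3) ^ 18
      * (y3 * ((1 - s) * W y2 y4 y2' y4' + y2 * y4) - y2 * W y3 y4 y3' y4') ^ 3
    + (y1 * y3) ^ 18 * (-(y1 * (s * W y3 y4 y3' y4' - y3 * y4))) ^ 3
    - (1 - s) ^ 2 * (y1 * y2) ^ 18 * (y1 * (y2 * y4 - s * W y2 y4 y2' y4')) ^ 3

/-- `Ub1`. -/
def Ub1 (s y1 y2 y3 y4 y1' y2' y3' y4' : R) : R :=
  s ^ 2 * (y2 * y3) ^ 18 * (y2 * W y3 y4 y3' y4') ^ 3
    + (y1 * y3) ^ 18 * (y3 * ((1 - s) * W y1 y4 y1' y4' + y1 * y4)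
        + y1 * (s * W y3 y4 y3' y4' - y3 * y4)) ^ 3
    - (1 - s) ^ 2 * (y1 * y2) ^ 18 * (y2 * W y1 y4 y1' y4') ^ 3
    - th s ^ 7 * y1 ^ 51 * (y2 * y3) ^ 114
      * SS ((y1 * y2 * y3) ^ 2) ((y1 * y2 * y3) ^ 2
          + th s * (W y1 y2 y1' y2' * W y1 y3 y1' y3' * W y2 y3 y2' y3'))

/-- The six equations in the seven unknowns `z1,z2,z3,y1,y2,y3,y4 = x 0, .., x 6`. -/
def sys (s : R) (x x' : Fin 7 → R) : Fin 6 → R :=
  ![x 2 ^ 21 - x 0 ^ 21 - x 1 ^ 21,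
    x 5 ^ 21 - x 3 ^ 21 - x 4 ^ 21,
    x 6 ^ 21 - x 3 ^ 21 - s * x 4 ^ 21,
    x 0 * x 4 - x 1 * x 3,
    Ua0 s (x 0) (x 1) (x 2) (x' 0) (x' 1) (x' 2)
      - Ub0 s (x 3) (x 4) (x 5) (x 6) (x' 4) (x' 5) (x' 6),
    Ua1 s (x 0) (x 1) (x 2) (x' 0) (x' 1) (x' 2)
      - Ub1 s (x 3) (x 4) (x 5) (x 6) (x' 3) (x' 4) (x' 5) (x' 6)]

section Map

variable {R' : Type*} [CommRing R'] (f : R →+* R')

theorem map_W (a b a' b' : R) : f (W a b a' b') = W (f a) (f b) (f a') (f b') := by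
  simp [W]

theorem map_hh0 (s a b : R) : f (hh0 s a b) = hh0 (f s) (f a) (f b) := by
  simp [hh0, map_ofNat]

theorem map_hh1 (s a b : R) : f (hh1 s a b) = hh1 (f s) (f a) (f b) := by
  simp [hh1, map_ofNat]

theorem map_GG (t E T : R) : f (GG t E T) = GG (f t) (f E) (f T) := by
  simp [GG, map_ofNat]

theorem map_SS (E A : R) : f (SS E A) = SS (f E) (f A) := by
  simp [SS, map_ofNat]

theorem map_th (s : R) : f (th s) = th (f s) := by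
  simp [th]

theorem map_sys (s : R) (x x' : Fin 7 → R) (m : Fin 6) :
    f (sys s x x' m) = sys (f s) (fun j => f (x j)) (fun j => f (x' j)) m := by
  fin_cases m <;>
    simp [sys, Ua0, Ua1, Ub0, Ub1, map_W, map_hh0, map_hh1, map_GG, map_SS, map_th]

end Map

end Poly

end Pool.Agent.Helper26.DC
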