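import Mathlib

/-!
Existence of derivations: on fraction fields, on polynomial rings, and the base field.
-/

set_option autoImplicit false

namespace Pool.Agent.Helper26.DC

/-- A map which is additive and satisfies the Leibniz rule is a derivation over the integers, for
all module structures. -/
private theorem derivation_of_map {R M : Type*} [CommRing R] [AddCommGroup M] [Module R M]
    [Algebra ℤ R] [Module ℤ M] (f : R →+ M) (h : ∀ a b, f (a * b) = a • f b + b • f a) :
    ∃ d : Derivation ℤ R M, ∀ x, d x = f x := by
  exact ⟨Derivation.mk' (@LinearMap.mk ℤ ℤ _ _ (RingHom.id ℤ) R M _ _ Algebra.toModule _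
    ⟨f, f.map_add⟩ (fun n x => by
      have h1 := @map_intCast_smul R M _ _ (R →+ M) _ _ f ℤ ℤ _ _ Algebra.toModule _ n x
      simpa using h1)) h, fun x => rfl⟩

/-- A ring homomorphism into the trivial square zero extension which is a section of the
first projection gives a derivation. -/
private theorem derivation_of_hom {R : Type*} [CommRing R] (alg : Algebra ℤ R) (md : Module ℤ R)
    (F : R →+* TrivSqZeroExt R R) (hF : ∀ x, (F x).fst = x) :
    ∃ d : @Derivation ℤ R R _ _ _ alg _ md, ∀ x, d x = (F x).snd := by
  refine @derivation_of_map R R _ _ _ alg md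
    { toFun := fun x => (F x).snd
      map_zero' := by simp
      map_add' := fun x y => by simp [TrivSqZeroExt.snd_add] } ?_
  intro a b
  change (F (a * b)).snd = a * (F b).snd + b * (F a).snd
  rw [map_mul, TrivSqZeroExt.snd_mul, hF, hF, op_smul_eq_smul]
  rfl

/-- The ring homomorphism attached to a derivation along a ring homomorphism. -/
private noncomputable def homOf {A B : Type*} [CommRing A] [CommRing B] (f : A →+* B)
    (D : Derivation ℤ A A) : A →+* TrivSqZeroExt B B where
  toFun a := TrivSqZeroExt.inl (f a) + TrivSqZeroExt.inr (f (D a))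
  map_one' := by
    ext <;> simp
  map_mul' a b := by
    ext
    · simp
    · simp only [TrivSqZeroExt.snd_add, TrivSqZeroExt.snd_inl, TrivSqZeroExt.snd_inr,
        TrivSqZeroExt.snd_mul, TrivSqZeroExt.fst_add, TrivSqZeroExt.fst_inl,
        TrivSqZeroExt.fst_inr, Derivation.leibniz, map_add, smul_eq_mul, map_mul,
        op_smul_eq_smul, zero_add, add_zero]
  map_zero' := by
    ext <;> simp
  map_add' a b := by
    ext <;> simp

private theorem homOf_fst {A B : Type*} [CommRing A] [CommRing B] (f : A →+* B)
    (D : Derivation ℤ A A) (a : A) : (homOf f D a).fst = f a := by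
  simp [homOf]

private theorem homOf_snd {A B : Type*} [CommRing A] [CommRing B] (f : A →+* B)
    (D : Derivation ℤ A A) (a : A) : (homOf f D a).snd = f (D a) := by
  simp [homOf]

/-- A derivation of a domain extends to its fraction field. -/
theorem exists_fractionRing_derivation (A : Type*) [CommRing A] [IsDomain A]
    (D : Derivation ℤ A A) :
    ∃ d : Derivation ℤ (FractionRing A) (FractionRing A),
      ∀ a, d (algebraMap A (FractionRing A) a) = algebraMap A (FractionRing A) (D a) := by
  classical
  let g := homOf (algebraMap A (FractionRing A)) D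
  have hg : ∀ y : nonZeroDivisors A, IsUnit (g y) := by
    intro y
    rw [TrivSqZeroExt.isUnit_iff_isUnit_fst]
    change IsUnit ((homOf (algebraMap A (FractionRing A)) D (y : A)).fst)
    rw [homOf_fst]
    exact IsLocalization.map_units (FractionRing A) y
  let F : FractionRing A →+* TrivSqZeroExt (FractionRing A) (FractionRing A) :=
    IsLocalization.lift (M := nonZeroDivisors A) hg
  have hFa : ∀ a, F (algebraMap A (FractionRing A) a) = g a := fun a =>
    IsLocalization.lift_eq hg a
  have hF : ∀ x, (F x).fst = x := by
    have h1 : (TrivSqZeroExt.fstHom (FractionRing A) (FractionRing A)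
        (FractionRing A)).toRingHom.comp F = RingHom.id (FractionRing A) := by
      apply IsLocalization.ringHom_ext (nonZeroDivisors A)
      ext a
      change (F (algebraMap A (FractionRing A) a)).fst = algebraMap A (FractionRing A) a
      rw [hFa]
      exact homOf_fst _ _ _
    intro x
    exact congrArg (fun f : FractionRing A →+* FractionRing A => f x) h1
  refine (derivation_of_hom _ _ F hF).imp fun d hd a => ?_
  refine (hd _).trans ?_
  rw [hFa]
  exact homOf_snd _ _ _

/-- A derivation of the coefficient ring and arbitrary values on the variables define a derivation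
of the polynomial ring. -/
theorem exists_mvPolynomial_derivation {K σ : Type*} [CommRing K] (d : Derivation ℤ K K)
    (g : σ → MvPolynomial σ K) :
    ∃ D : Derivation ℤ (MvPolynomial σ K) (MvPolynomial σ K),
      (∀ a, D (MvPolynomial.C a) = MvPolynomial.C (d a)) ∧
        ∀ i, D (MvPolynomial.X i) = g i := by
  let φ : K →+* TrivSqZeroExt (MvPolynomial σ K) (MvPolynomial σ K) :=
    homOf (MvPolynomial.C (σ := σ)) d
  let F : MvPolynomial σ K →+* TrivSqZeroExt (MvPolynomial σ K) (MvPolynomial σ K) :=
    MvPolynomial.eval₂Hom φ fun i =>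
      TrivSqZeroExt.inl (MvPolynomial.X i) + TrivSqZeroExt.inr (g i)
  have hC : ∀ a, F (MvPolynomial.C a) = φ a := fun a => MvPolynomial.eval₂Hom_C _ _ _
  have hX : ∀ i, F (MvPolynomial.X i) =
      TrivSqZeroExt.inl (MvPolynomial.X i) + TrivSqZeroExt.inr (g i) := fun i =>
    MvPolynomial.eval₂Hom_X' _ _ _
  have hF : ∀ x, (F x).fst = x := by
    have h1 : (TrivSqZeroExt.fstHom (MvPolynomial σ K) (MvPolynomial σ K)
        (MvPolynomial σ K)).toRingHom.comp F = RingHom.id (MvPolynomial σ K) := by
      apply MvPolynomial.ringHom_ext
      · intro a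
        change (F (MvPolynomial.C a)).fst = MvPolynomial.C a
        rw [hC]
        exact homOf_fst _ _ _
      · intro i
        change (F (MvPolynomial.X i)).fst = MvPolynomial.X i
        rw [hX]
        simp
    intro x
    exact congrArg (fun f : MvPolynomial σ K →+* MvPolynomial σ K => f x) h1
  refine (derivation_of_hom _ _ F hF).imp fun D hD => ⟨fun a => ?_, fun i => ?_⟩
  · refine (hD _).trans ?_
    rw [hC]
    exact homOf_snd _ _ _
  · refine (hD _).trans ?_
    rw [hX]
    simp

/-- The base field: the rational functions `FractionRing (Polynomial ℚ)` with `d/dX`, `s = 21 X`. -/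
theorem exists_base : ∃ (K : Type) (_ : Field K) (_ : CharZero K) (_ : Differential K) (s : K),
    Differential.deriv s = 21 := by
  obtain ⟨d0, hd0⟩ := exists_fractionRing_derivation (Polynomial ℚ)
    (Polynomial.derivative'.restrictScalars ℤ)
  have hc : CharZero (FractionRing (Polynomial ℚ)) :=
    charZero_of_injective_algebraMap
      (IsFractionRing.injective (Polynomial ℚ) (FractionRing (Polynomial ℚ)))
  have hd2 : ∃ D : Differential (FractionRing (Polynomial ℚ)), ∀ x, D.deriv x = d0 x := by
    let f : FractionRing (Polynomial ℚ) →+ FractionRing (Polynomial ℚ) :=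
      { toFun := fun x => d0 x
        map_zero' := map_zero d0
        map_add' := fun x y => map_add d0 x y }
    obtain ⟨d, hd⟩ := @derivation_of_map (FractionRing (Polynomial ℚ))
      (FractionRing (Polynomial ℚ)) _ _ _ (Ring.toIntAlgebra (FractionRing (Polynomial ℚ)))
      (AddCommGroup.toIntModule (FractionRing (Polynomial ℚ))) f
      (fun a b => by
        change d0 (a * b) = a * d0 b + b * d0 a
        rw [Derivation.leibniz]
        rfl)
    exact ⟨⟨d⟩, hd⟩
  obtain ⟨D, hD⟩ := hd2
  refine ⟨FractionRing (Polynomial ℚ), inferInstance, hc, D,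
    algebraMap (Polynomial ℚ) (FractionRing (Polynomial ℚ)) (21 * Polynomial.X), ?_⟩
  refine ((hD _).trans (hd0 _)).trans ?_
  change algebraMap (Polynomial ℚ) (FractionRing (Polynomial ℚ))
    (Polynomial.derivative (21 * Polynomial.X : Polynomial ℚ)) = 21
  have h2 : Polynomial.derivative (21 * Polynomial.X : Polynomial ℚ) = 21 := by
    simp
  rw [h2, map_ofNat]

end Pool.Agent.Helper26.DC
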