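import Pool.Agent.Helper26.DC.Iso5

/-!
The zero solution is isolated.
-/

set_option autoImplicit false

namespace Pool.Agent.Helper26.DC

theorem Ua_zero {R : Type*} [CommRing R] (s a b c : R) :
    Ua0 s 0 0 0 a b c = 0 ∧ Ua1 s 0 0 0 a b c = 0 := by
  constructor
  · simp [Ua0, W, hh0]
  · simp [Ua1, W, hh1]

theorem Ub_zero {R : Type*} [CommRing R] (s a b c d : R) :
    Ub0 s 0 0 0 0 b c d = 0 ∧ Ub1 s 0 0 0 0 a b c d = 0 := by
  constructor
  · simp [Ub0]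
  · simp [Ub1]

theorem iso {L : Type*} [Field L] (D : Derivation ℤ L L) (v : L → ℝ) (hv : VDF D v)
    (s : L) (hs : D s = 21) (hvs : v s = 1) (hv1s : v (1 - s) = 1) (x : Fin 7 → L)
    (hx : ∀ j, v (x j) ≤ (1 / 2) ^ 20)
    (hsys : ∀ m, sys s x (fun j => D (x j)) m = 0) : ∀ j, x j = 0 := by
  have f0 : x 2 ^ 21 - x 0 ^ 21 - x 1 ^ 21 = 0 := hsys 0
  have f1 : x 5 ^ 21 - x 3 ^ 21 - x 4 ^ 21 = 0 := hsys 1
  have f2 : x 6 ^ 21 - x 3 ^ 21 - s * x 4 ^ 21 = 0 := hsys 2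
  have f3 : x 0 * x 4 - x 1 * x 3 = 0 := hsys 3
  have f4 : Ua0 s (x 0) (x 1) (x 2) (D (x 0)) (D (x 1)) (D (x 2))
      - Ub0 s (x 3) (x 4) (x 5) (x 6) (D (x 4)) (D (x 5)) (D (x 6)) = 0 := hsys 4
  have f5 : Ua1 s (x 0) (x 1) (x 2) (D (x 0)) (D (x 1)) (D (x 2))
      - Ub1 s (x 3) (x 4) (x 5) (x 6) (D (x 3)) (D (x 4)) (D (x 5)) (D (x 6)) = 0 := hsys 5
  generalize hz1 : x 0 = z1 at *
  generalize hz2 : x 1 = z2 at *
  generalize hz3 : x 2 = z3 at *
  generalize hy1 : x 3 = y1 at *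
  generalize hy2 : x 4 = y2 at *
  generalize hy3 : x 5 = y3 at *
  generalize hy4 : x 6 = y4 at *
  have g0 : z3 ^ 21 = z1 ^ 21 + z2 ^ 21 := by linear_combination f0
  have g1 : y3 ^ 21 = y1 ^ 21 + y2 ^ 21 := by linear_combination f1
  have g2 : y4 ^ 21 = y1 ^ 21 + s * y2 ^ 21 := by linear_combination f2
  have g3 : z1 * y2 = z2 * y1 := by linear_combination f3
  have hZs : max (v z1) (v z2) ≤ (1 / 2) ^ 20 :=
    max_le (hz1 ▸ hx 0) (hz2 ▸ hx 1)
  have hYs : max (v y1) (v y2) ≤ (1 / 2) ^ 20 :=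
    max_le (hy1 ▸ hx 3) (hy2 ▸ hx 4)
  have hz1n := hv.nonneg z1
  have hz2n := hv.nonneg z2
  have hy1n := hv.nonneg y1
  have hy2n := hv.nonneg y2
  have p0 : (0 : L) ^ 21 = 0 := by simp
  have zz : max (v z1) (v z2) = 0 → z1 = 0 ∧ z2 = 0 ∧ z3 = 0 := by
    intro h
    have h1 : z1 = 0 := hv.eq_zero (le_antisymm ((le_max_left _ _).trans h.le) hz1n)
    have h2 : z2 = 0 := hv.eq_zero (le_antisymm ((le_max_right _ _).trans h.le) hz2n)
    refine ⟨h1, h2, ?_⟩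
    rw [h1, h2, p0, add_zero] at g0
    exact pow_eq_zero_iff (by norm_num) |>.mp g0
  have yy : max (v y1) (v y2) = 0 → y1 = 0 ∧ y2 = 0 ∧ y3 = 0 ∧ y4 = 0 := by
    intro h
    have h1 : y1 = 0 := hv.eq_zero (le_antisymm ((le_max_left _ _).trans h.le) hy1n)
    have h2 : y2 = 0 := hv.eq_zero (le_antisymm ((le_max_right _ _).trans h.le) hy2n)
    refine ⟨h1, h2, ?_, ?_⟩
    · rw [h1, h2, p0, add_zero] at g1
      exact pow_eq_zero_iff (by norm_num) |>.mp g1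
    · rw [h1, h2, p0, mul_zero, add_zero] at g2
      exact pow_eq_zero_iff (by norm_num) |>.mp g2
  have hZ0 : 0 ≤ max (v z1) (v z2) := le_max_of_le_left hz1n
  have hY0 : 0 ≤ max (v y1) (v y2) := le_max_of_le_left hy1n
  rcases hZ0.eq_or_lt with hZ | hZ
  · obtain ⟨q1, q2, q3⟩ := zz hZ.symm
    rcases hY0.eq_or_lt with hY | hY
    · obtain ⟨q4, q5, q6, q7⟩ := yy hY.symm
      intro j
      fin_cases j
      · exact hz1.trans q1
      · exact hz2.trans q2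
      · exact hz3.trans q3
      · exact hy1.trans q4
      · exact hy2.trans q5
      · exact hy3.trans q6
      · exact hy4.trans q7
    · exfalso
      rw [q1, q2, q3] at f4 f5
      rw [(Ua_zero _ _ _ _).1] at f4
      rw [(Ua_zero _ _ _ _).2] at f5
      exact hv.case3 hs hvs hv1s g1 g2 hY rfl (by linear_combination -f4)
        (by linear_combination -f5)
  · exfalso
    rcases hY0.eq_or_lt with hY | hY
    · obtain ⟨q4, q5, q6, q7⟩ := yy hY.symm
      rw [q4, q5, q6, q7] at f4 f5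
      rw [(Ub_zero s 0 _ _ _).1] at f4
      rw [(Ub_zero _ _ _ _ _).2] at f5
      exact hv.case2 hs hvs hv1s g0 hZ rfl hZs (by linear_combination f4)
        (by linear_combination f5)
    · exact hv.case4 hs hvs hv1s g0 g1 g2 g3 hY rfl hYs hZ rfl hZs
        (by linear_combination f4) (by linear_combination f5)

end Pool.Agent.Helper26.DC
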