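import Pool.Agent.Helper26.DC.Point
import Pool.Agent.Helper26.DC.Iso

/-!
Assembly: the ideal of all variables is a minimal prime over the differential ideal of the system.
-/

set_option autoImplicit false

open MvPolynomial

namespace Pool.Agent.Helper26.DC

theorem constantCoeff_D {K : Type} [Field K] {n : ℕ} (d0 : Derivation ℤ K K)
    (D : Derivation ℤ (MvPolynomial (Fin n × ℕ) K) (MvPolynomial (Fin n × ℕ) K))
    (hDC : ∀ a : K, D (C a) = C (d0 a))
    (hDX : ∀ (j : Fin n) (k : ℕ), D (X (j, k)) = X (j, k + 1))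
    (f : MvPolynomial (Fin n × ℕ) K) :
    constantCoeff (D f) = d0 (constantCoeff f) := by
  induction f using MvPolynomial.induction_on with
  | C a => simp [hDC]
  | add p q hp hq => simp [hp, hq]
  | mul_X p i hp =>
    obtain ⟨j, k⟩ := i
    simp [Derivation.leibniz, hDX, hp]

theorem sys_zero {K : Type*} [CommRing K] (s : K) (m : Fin 6) :
    sys s (fun _ => 0) (fun _ => 0) m = 0 := by
  fin_cases m <;> simp [sys, Ua0, Ua1, Ub0, Ub1, W, hh0, hh1, GG, SS]

theorem final :
    ¬ (∀ (K : Type) [Field K] [CharZero K] [Differential K] (n i : ℕ), i < n →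
      ∀ (u : Fin i → MvPolynomial (Fin n × ℕ) K)
        (D : Derivation ℤ (MvPolynomial (Fin n × ℕ) K) (MvPolynomial (Fin n × ℕ) K)),
        (∀ a : K, D (MvPolynomial.C a) = MvPolynomial.C (Differential.deriv a)) →
        (∀ (j : Fin n) (k : ℕ), D (MvPolynomial.X (j, k)) = MvPolynomial.X (j, k + 1)) →
        sInf {J : Ideal (MvPolynomial (Fin n × ℕ) K) | (∀ m, u m ∈ J) ∧ ∀ f ∈ J, D f ∈ J} ≠ ⊤ →
        ∀ P ∈ (sInf {J : Ideal (MvPolynomial (Fin n × ℕ) K) |
                (∀ m, u m ∈ J) ∧ ∀ f ∈ J, D f ∈ J}).minimalPrimes,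
          ∃ j : Fin n, ∀ f ∈ MvPolynomial.supported K {v : Fin n × ℕ | v.1 = j},
            f ∈ P → f = 0) := by
  intro h
  obtain ⟨K, iF, iC, iD, s, hs⟩ := exists_base
  obtain ⟨D, hDC, hDX'⟩ := exists_mvPolynomial_derivation (K := K) (σ := Fin 7 × ℕ)
    Differential.deriv (fun p => X (p.1, p.2 + 1))
  have hDX : ∀ (j : Fin 7) (k : ℕ), D (X (j, k)) = X (j, k + 1) := fun j k => hDX' (j, k)
  have hs0 : s ≠ 0 := by
    rintro rfl
    rw [map_zero] at hs
    exact (by norm_num : (21 : K) ≠ 0) hs.symm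
  have hs1 : 1 - s ≠ 0 := by
    intro h1
    have h2 : s = 1 := (sub_eq_zero.mp h1).symm
    rw [h2, Derivation.map_one_eq_zero] at hs
    exact (by norm_num : (21 : K) ≠ 0) hs.symm
  set u : Fin 6 → MvPolynomial (Fin 7 × ℕ) K :=
    sys (C s) (fun j => X (j, 0)) (fun j => X (j, 1)) with hu
  set P0 : Ideal (MvPolynomial (Fin 7 × ℕ) K) :=
    RingHom.ker (constantCoeff (R := K) (σ := Fin 7 × ℕ)) with hP0
  set I : Ideal (MvPolynomial (Fin 7 × ℕ) K) :=
    sInf {J : Ideal (MvPolynomial (Fin 7 × ℕ) K) | (∀ m, u m ∈ J) ∧ ∀ f ∈ J, D f ∈ J} with hI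
  have hP0mem : (∀ m, u m ∈ P0) ∧ ∀ f ∈ P0, D f ∈ P0 := by
    constructor
    · intro m
      rw [hP0, RingHom.mem_ker, hu, map_sys]
      simpa using sys_zero s m
    · intro f hf
      rw [hP0, RingHom.mem_ker] at hf ⊢
      rw [constantCoeff_D Differential.deriv D hDC hDX, hf, map_zero]
  have hIle : I ≤ P0 := sInf_le hP0mem
  have hP0prime : P0.IsPrime := RingHom.ker_isPrime _
  have hItop : I ≠ ⊤ := fun ht => hP0prime.ne_top (top_le_iff.mp (ht ▸ hIle))
  have hIu : ∀ m, u m ∈ I := by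
    intro m
    rw [hI, Submodule.mem_sInf]
    intro J hJ
    exact hJ.1 m
  have hID : ∀ f ∈ I, D f ∈ I := by
    intro f hf
    rw [hI, Submodule.mem_sInf] at hf ⊢
    intro J hJ
    exact hJ.2 f (hf J hJ)
  have hmin : P0 ∈ I.minimalPrimes := by
    refine ⟨⟨hP0prime, hIle⟩, ?_⟩
    rintro q ⟨hqp, hIq⟩ hqP0
    have hall : ∀ (j : Fin 7) (k : ℕ), (X (j, k) : MvPolynomial (Fin 7 × ℕ) K) ∈ q := by
      by_contra hcon
      push Not at hcon
      obtain ⟨L, iL, d, v, phi, hv, hphiD, hphiC, hsmall, ⟨j0, hj0⟩, hker⟩ :=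
        exists_point Differential.deriv D hDC hDX q hqP0 hcon 20
      have hphi : ∀ m, phi (u m) = 0 := by
        intro m
        refine hker _ ?_
        intro k
        refine hIq ?_
        induction k with
        | zero => exact hIu m
        | succ k ih => rw [Function.iterate_succ_apply']; exact hID _ ih
      have hX1 : ∀ j : Fin 7, phi (X (j, 1)) = d (phi (X (j, 0))) := by
        intro j
        rw [← hphiD, hDX]
      have hsysz : ∀ m, sys (phi (C s)) (fun j => phi (X (j, 0)))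
          (fun j => d (phi (X (j, 0)))) m = 0 := by
        intro m
        rw [← hphi m, hu, map_sys]
        simp only [hX1]
      refine hj0 (iso d v hv (phi (C s)) ?_ (hphiC s hs0) ?_ (fun j => phi (X (j, 0)))
        hsmall hsysz j0)
      · rw [← hphiD, hDC, hs, map_ofNat, map_ofNat]
      · have h1 := hphiC (1 - s) hs1
        simpa using h1
    intro f hf
    rw [hP0, RingHom.mem_ker] at hf
    have hspan : Ideal.span (Set.range (X : Fin 7 × ℕ → MvPolynomial (Fin 7 × ℕ) K)) ≤ q := by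
      rw [Ideal.span_le]
      rintro _ ⟨⟨j, k⟩, rfl⟩
      exact hall j k
    refine hspan ?_
    have h2 := (MvPolynomial.mem_pow_idealOfVars_iff' (σ := Fin 7 × ℕ) (R := K) 1 f).mpr ?_
    · rwa [pow_one] at h2
    · intro m hm
      have hm0 : m = 0 := by
        have h3 : m.degree = 0 := by omega
        exact (Finsupp.degree_eq_zero_iff m).mp h3
      rw [hm0]
      exact hf
  obtain ⟨j, hj⟩ := h K 7 6 (by norm_num) u D hDC hDX hItop P0 hmin
  have hX : (X (j, 0) : MvPolynomial (Fin 7 × ℕ) K) = 0 := by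
    refine hj _ ?_ ?_
    · exact MvPolynomial.X_mem_supported.mpr rfl
    · rw [hP0, RingHom.mem_ker]
      simp
  exact MvPolynomial.X_ne_zero _ hX

end Pool.Agent.Helper26.DC
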