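import Mathlib

/-!
The Gauss norm of the Taylor series of an element of a differential ring.
-/

set_option autoImplicit false

namespace Pool.Agent.Helper26.DC

private theorem DC3_leibniz {R : Type*} [CommRing R] (D : Derivation ℤ R R) (f h : R) (n : ℕ) :
    D^[n] (f * h) =
      ∑ ij ∈ Finset.HasAntidiagonal.antidiagonal n, (n.choose ij.1) • (D^[ij.1] f * D^[ij.2] h) := by
  induction n with
  | zero => simp
  | succ n ih =>
    rw [Function.iterate_succ_apply', ih, map_sum,
      Finset.sum_antidiagonal_choose_succ_nsmul (fun i j => D^[i] f * D^[j] h) n,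
      ← Finset.sum_add_distrib]
    refine Finset.sum_congr rfl fun ij hij => ?_
    have h1 : n.choose ij.2 = n.choose ij.1 := by
      have := Finset.HasAntidiagonal.mem_antidiagonal.mp hij
      exact Nat.choose_symm_of_eq_add (by omega)
    rw [h1, map_nsmul, Derivation.leibniz, nsmul_add, Function.iterate_succ_apply',
      Function.iterate_succ_apply', smul_eq_mul, smul_eq_mul, mul_comm (D^[ij.2] h)]

private theorem DC3_iterate_zero {R : Type*} [CommRing R] (D : Derivation ℤ R R) (n : ℕ) :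
    D^[n] (0 : R) = 0 := by
  induction n with
  | zero => rfl
  | succ n ih => rw [Function.iterate_succ_apply', ih, map_zero]

private theorem DC3_iterate_one {R : Type*} [CommRing R] (D : Derivation ℤ R R) (n : ℕ)
    (hn : n ≠ 0) : D^[n] (1 : R) = 0 := by
  obtain ⟨k, rfl⟩ := Nat.exists_eq_succ_of_ne_zero hn
  rw [Function.iterate_succ_apply, Derivation.map_one_eq_zero, DC3_iterate_zero]

private theorem DC3_iterate_add {R : Type*} [CommRing R] (D : Derivation ℤ R R) (f h : R) (n : ℕ) :
    D^[n] (f + h) = D^[n] f + D^[n] h := by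
  induction n with
  | zero => rfl
  | succ n ih => rw [Function.iterate_succ_apply', ih, map_add, Function.iterate_succ_apply',
      Function.iterate_succ_apply']

/-- ultrametric bound for finite sums -/
private theorem DC3_sum_le {R ι : Type*} [CommRing R] (nu : R → ℝ) (hzero : nu 0 = 0)
    (hadd : ∀ f h, nu (f + h) ≤ max (nu f) (nu h)) (s : Finset ι) (F : ι → R) (c : ℝ)
    (hc : 0 ≤ c) (hF : ∀ i ∈ s, nu (F i) ≤ c) : nu (∑ i ∈ s, F i) ≤ c := by
  classical
  induction s using Finset.induction_on with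
  | empty => rw [Finset.sum_empty, hzero]; exact hc
  | insert a s ha ih =>
    rw [Finset.sum_insert ha]
    refine (hadd _ _).trans (max_le (hF a (Finset.mem_insert_self a s)) ?_)
    exact ih fun i hi => hF i (Finset.mem_insert_of_mem hi)

private theorem DC3_sum_lt {R ι : Type*} [CommRing R] (nu : R → ℝ) (hzero : nu 0 = 0)
    (hadd : ∀ f h, nu (f + h) ≤ max (nu f) (nu h)) (s : Finset ι) (F : ι → R) (c : ℝ)
    (hc : 0 < c) (hF : ∀ i ∈ s, nu (F i) < c) : nu (∑ i ∈ s, F i) < c := by
  classical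
  induction s using Finset.induction_on with
  | empty => rw [Finset.sum_empty, hzero]; exact hc
  | insert a s ha ih =>
    rw [Finset.sum_insert ha]
    refine (hadd _ _).trans_lt (max_lt (hF a (Finset.mem_insert_self a s)) ?_)
    exact ih fun i hi => hF i (Finset.mem_insert_of_mem hi)

/-- a bounded sequence whose `k`-th term is at most `1 / 2 ^ k` attains its positive supremum -/
private theorem DC3_attain (a : ℕ → ℝ) (ha : ∀ k, a k ≤ 1 / 2 ^ k) (m : ℝ) (hm : 0 < m)
    (hle : ∀ k, a k ≤ m) (hlub : ∀ c, (∀ k, a k ≤ c) → m ≤ c) : ∃ k, a k = m := by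
  by_contra hno
  push Not at hno
  have hlt : ∀ k, a k < m := fun k => lt_of_le_of_ne (hle k) (hno k)
  obtain ⟨N, hN⟩ : ∃ N : ℕ, (1 / 2 : ℝ) ^ N < m / 2 :=
    exists_pow_lt_of_lt_one (by linarith) (by norm_num)
  -- the maximum of the first terms
  have h1 : ∃ c : ℝ, c < m ∧ ∀ k ∈ Finset.range N, a k ≤ c := by
    rcases (Finset.range N).eq_empty_or_nonempty with he | hne
    · exact ⟨0, hm, by rw [he]; simp⟩
    · obtain ⟨k0, hk0, hmax⟩ := Finset.exists_max_image (Finset.range N) a hne
      exact ⟨a k0, hlt k0, hmax⟩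
  obtain ⟨c, hcm, hc⟩ := h1
  have h2 : m ≤ max c (m / 2) := by
    apply hlub
    intro k
    by_cases hk : k < N
    · exact (hc k (Finset.mem_range.mpr hk)).trans (le_max_left _ _)
    · refine le_trans ?_ (le_max_right _ _)
      refine (ha k).trans ?_
      have h3 : (1 : ℝ) / 2 ^ k ≤ (1 / 2) ^ N := by
        rw [one_div, ← inv_pow, ← one_div]
        exact pow_le_pow_of_le_one (by norm_num) (by norm_num) (by omega)
      exact h3.trans hN.le
  have h4 : max c (m / 2) < m := max_lt hcm (by linarith)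
  linarith

/-- `mu f` is the supremum of `nu (D^k f) / 2^k`; it is multiplicative (Gauss lemma for the Taylor
series `sum (D^k f / k!) t^k`, `t` of size `1/2`; only the binomial coefficients
`Nat.choose` are needed). -/
theorem exists_gauss {R : Type*} [CommRing R] (D : Derivation ℤ R R) (nu : R → ℝ)
    (h0 : ∀ f, 0 ≤ nu f) (h1 : ∀ f, nu f ≤ 1) (hzero : nu 0 = 0) (hone : nu 1 = 1)
    (hmul : ∀ f h, nu (f * h) = nu f * nu h) (hadd : ∀ f h, nu (f + h) ≤ max (nu f) (nu h))
    (hnat : ∀ n : ℕ, n ≠ 0 → nu (n : R) = 1) :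
    ∃ mu : R → ℝ, (∀ f, 0 ≤ mu f) ∧ (∀ f, mu f ≤ 1) ∧ mu 0 = 0 ∧ mu 1 = 1 ∧
      (∀ f h, mu (f * h) = mu f * mu h) ∧ (∀ f h, mu (f + h) ≤ max (mu f) (mu h)) ∧
      (∀ f, mu (D f) ≤ 2 * mu f) ∧
      (∀ f (k : ℕ), nu (D^[k] f) ≤ 2 ^ k * mu f) ∧
      (∀ f (c : ℝ), 0 ≤ c → (∀ k : ℕ, nu (D^[k] f) ≤ 2 ^ k * c) → mu f ≤ c) := by
  classical
  have hbdd : ∀ f, BddAbove (Set.range fun k : ℕ => nu (D^[k] f) / 2 ^ k) := by
    intro f
    refine ⟨1, ?_⟩
    rintro _ ⟨k, rfl⟩
    simp only
    rw [div_le_one (by positivity)]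
    exact (h1 _).trans (one_le_pow₀ (by norm_num))
  set mu : R → ℝ := fun f => ⨆ k : ℕ, nu (D^[k] f) / 2 ^ k with hmu
  have hle : ∀ f (k : ℕ), nu (D^[k] f) / 2 ^ k ≤ mu f := fun f k => le_ciSup (hbdd f) k
  have hle' : ∀ f (k : ℕ), nu (D^[k] f) ≤ 2 ^ k * mu f := by
    intro f k
    have := hle f k
    rw [div_le_iff₀ (by positivity)] at this
    linarith
  have hlub : ∀ f (c : ℝ), (∀ k : ℕ, nu (D^[k] f) ≤ 2 ^ k * c) → mu f ≤ c := by
    intro f c hc
    refine ciSup_le fun k => ?_
    rw [div_le_iff₀ (by positivity)]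
    have := hc k
    linarith
  have hnn : ∀ f, 0 ≤ mu f := fun f => le_trans (by simpa using h0 f) (hle f 0)
  have hneg : ∀ f, nu (-f) = nu f := by
    have h2 : nu (-1) * nu (-1) = 1 := by rw [← hmul]; simpa using hone
    have h3 : nu (-1) = 1 := by nlinarith [h0 (-1), h1 (-1)]
    intro f
    rw [neg_eq_neg_one_mul, hmul, h3, one_mul]
  have hmul_le : ∀ f h, mu (f * h) ≤ mu f * mu h := by
    intro f h
    apply hlub
    intro n
    rw [DC3_leibniz]
    have hnn2 : 0 ≤ mu f * mu h := mul_nonneg (hnn f) (hnn h)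
    apply DC3_sum_le nu hzero hadd _ _ _ (by positivity)
    intro ij hij
    rw [nsmul_eq_mul, hmul, hmul]
    have h3 := Finset.HasAntidiagonal.mem_antidiagonal.mp hij
    have h4 := hle' f ij.1
    have h5 := hle' h ij.2
    calc nu ((n.choose ij.1 : ℕ) : R) * (nu (D^[ij.1] f) * nu (D^[ij.2] h))
        ≤ 1 * (nu (D^[ij.1] f) * nu (D^[ij.2] h)) :=
          mul_le_mul_of_nonneg_right (h1 _) (mul_nonneg (h0 _) (h0 _))
      _ ≤ 1 * ((2 ^ ij.1 * mu f) * (2 ^ ij.2 * mu h)) := by
          rw [one_mul, one_mul]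
          exact mul_le_mul h4 h5 (h0 _) (mul_nonneg (by positivity) (hnn f))
      _ = 2 ^ n * (mu f * mu h) := by rw [← h3, pow_add]; ring
  have hatt : ∀ f, 0 < mu f → ∃ k, nu (D^[k] f) / 2 ^ k = mu f ∧
      ∀ l < k, nu (D^[l] f) / 2 ^ l < mu f := by
    intro f hf
    have hex : ∃ k : ℕ, nu (D^[k] f) / 2 ^ k = mu f := by
      refine DC3_attain (fun k => nu (D^[k] f) / 2 ^ k) ?_ (mu f) hf (hle f) ?_
      · intro k
        exact div_le_div_of_nonneg_right (h1 _) (by positivity)
      · intro c hc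
        exact ciSup_le hc
    refine ⟨Nat.find hex, Nat.find_spec hex, fun l hl => ?_⟩
    exact lt_of_le_of_ne (hle f l) (Nat.find_min hex hl)
  have hmul_ge : ∀ f h, mu f * mu h ≤ mu (f * h) := by
    intro f h
    rcases (hnn f).eq_or_lt with hf0 | hf0
    · rw [← hf0, zero_mul]; exact hnn _
    rcases (hnn h).eq_or_lt with hh0 | hh0
    · rw [← hh0, mul_zero]; exact hnn _
    obtain ⟨k0, hk0, hk0'⟩ := hatt f hf0
    obtain ⟨l0, hl0, hl0'⟩ := hatt h hh0
    set M : ℝ := 2 ^ (k0 + l0) * (mu f * mu h) with hM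
    have hMpos : 0 < M := by rw [hM]; positivity
    have hsum := DC3_leibniz D f h (k0 + l0)
    have hmem : ((k0, l0) : ℕ × ℕ) ∈ Finset.HasAntidiagonal.antidiagonal (k0 + l0) := by
      rw [Finset.HasAntidiagonal.mem_antidiagonal]
    rw [← Finset.add_sum_erase _ _ hmem] at hsum
    set T0 : R := ((k0 + l0).choose (k0, l0).1) • (D^[(k0, l0).1] f * D^[(k0, l0).2] h) with hT0
    set rest : R := ∑ ij ∈ (Finset.HasAntidiagonal.antidiagonal (k0 + l0)).erase (k0, l0),
      ((k0 + l0).choose ij.1) • (D^[ij.1] f * D^[ij.2] h) with hrest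
    have e1 : nu (D^[k0] f) = 2 ^ k0 * mu f := by
      rw [div_eq_iff (by positivity)] at hk0
      linarith
    have e2 : nu (D^[l0] h) = 2 ^ l0 * mu h := by
      rw [div_eq_iff (by positivity)] at hl0
      linarith
    have hT0v : nu T0 = M := by
      rw [hT0, nsmul_eq_mul, hmul, hmul, hnat _ (Nat.choose_pos (Nat.le_add_right _ _)).ne', one_mul]
      simp only
      rw [e1, e2, hM, pow_add]
      ring
    have hrestv : nu rest < M := by
      apply DC3_sum_lt nu hzero hadd _ _ _ hMpos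
      intro ij hij
      rw [Finset.mem_erase, Finset.HasAntidiagonal.mem_antidiagonal] at hij
      obtain ⟨hne, hs⟩ := hij
      rw [nsmul_eq_mul, hmul, hmul]
      have hb : nu (((k0 + l0).choose ij.1 : ℕ) : R) * (nu (D^[ij.1] f) * nu (D^[ij.2] h)) ≤
          nu (D^[ij.1] f) * nu (D^[ij.2] h) := by
        have := mul_le_mul_of_nonneg_right (h1 (((k0 + l0).choose ij.1 : ℕ) : R))
          (mul_nonneg (h0 (D^[ij.1] f)) (h0 (D^[ij.2] h)))
        rwa [one_mul] at this
      refine hb.trans_lt ?_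
      have h4 := hle' f ij.1
      have h5 := hle' h ij.2
      have hMe : M = (2 ^ ij.1 * mu f) * (2 ^ ij.2 * mu h) := by
        rw [hM, ← hs, pow_add]
        ring
      rw [hMe]
      rcases lt_or_ge ij.1 k0 with hlt | hge
      · have h6 := hk0' ij.1 hlt
        rw [div_lt_iff₀ (by positivity)] at h6
        have h7 : nu (D^[ij.1] f) < 2 ^ ij.1 * mu f := by linarith
        calc nu (D^[ij.1] f) * nu (D^[ij.2] h) ≤ nu (D^[ij.1] f) * (2 ^ ij.2 * mu h) :=
              mul_le_mul_of_nonneg_left h5 (h0 _)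
          _ < (2 ^ ij.1 * mu f) * (2 ^ ij.2 * mu h) :=
              mul_lt_mul_of_pos_right h7 (by positivity)
      · have hlt2 : ij.2 < l0 := by
          by_contra hcon
          apply hne
          have : ij.1 = k0 ∧ ij.2 = l0 := by omega
          exact Prod.ext this.1 this.2
        have h6 := hl0' ij.2 hlt2
        rw [div_lt_iff₀ (by positivity)] at h6
        have h7 : nu (D^[ij.2] h) < 2 ^ ij.2 * mu h := by linarith
        calc nu (D^[ij.1] f) * nu (D^[ij.2] h) ≤ (2 ^ ij.1 * mu f) * nu (D^[ij.2] h) :=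
              mul_le_mul_of_nonneg_right h4 (h0 _)
          _ < (2 ^ ij.1 * mu f) * (2 ^ ij.2 * mu h) :=
              mul_lt_mul_of_pos_left h7 (by positivity)
    have hfin : M ≤ nu (D^[k0 + l0] (f * h)) := by
      have e3 : T0 = D^[k0 + l0] (f * h) + -rest := by
        rw [hsum]
        ring
      have h8 := hadd (D^[k0 + l0] (f * h)) (-rest)
      rw [← e3, hT0v, hneg] at h8
      rcases le_max_iff.mp h8 with h9 | h9
      · exact h9
      · exact absurd h9 (not_le.mpr hrestv)
    have h10 := hle' (f * h) (k0 + l0)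
    have h11 : 2 ^ (k0 + l0) * (mu f * mu h) ≤ 2 ^ (k0 + l0) * mu (f * h) := hfin.trans h10
    exact le_of_mul_le_mul_left h11 (by positivity)
  refine ⟨mu, hnn, ?_, ?_, ?_, ?_, ?_, ?_, hle', ?_⟩
  · intro f
    apply hlub
    intro k
    rw [mul_one]
    exact (h1 _).trans (one_le_pow₀ (by norm_num))
  · apply le_antisymm _ (hnn 0)
    apply hlub
    intro k
    rw [DC3_iterate_zero, hzero, mul_zero]
  · apply le_antisymm
    · apply hlub
      intro k
      rw [mul_one]
      exact (h1 _).trans (one_le_pow₀ (by norm_num))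
    · have := hle' 1 0
      simpa [hone] using this
  · intro f h
    exact le_antisymm (hmul_le f h) (hmul_ge f h)
  · intro f h
    apply hlub
    intro k
    rw [DC3_iterate_add]
    refine (hadd _ _).trans (max_le ?_ ?_)
    · exact (hle' f k).trans (mul_le_mul_of_nonneg_left (le_max_left _ _) (by positivity))
    · exact (hle' h k).trans (mul_le_mul_of_nonneg_left (le_max_right _ _) (by positivity))
  · intro f
    apply hlub
    intro k
    have := hle' f (k + 1)
    rw [Function.iterate_succ_apply, pow_succ] at this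
    linarith
  · intro f c _ hc
    exact hlub f c hc

end Pool.Agent.Helper26.DC
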