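import Pool.Agent.Helper26.DC.Defs

/-!
Basic facts on valued differential fields, and the algebraic identities on the cones.
-/

set_option autoImplicit false

namespace Pool.Agent.Helper26.DC

namespace VDF

variable {L : Type*} [Field L] {D : Derivation ℤ L L} {v : L → ℝ} (hv : VDF D v)

include hv

theorem neg_one : v (-1) = 1 := by
  have h1 : v (-1) * v (-1) = 1 := by rw [← hv.mul]; simp [hv.map_one]
  have h2 := hv.nonneg (-1)
  nlinarith

theorem neg (a : L) : v (-a) = v a := by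
  rw [← neg_one_mul, hv.mul, hv.neg_one, one_mul]

theorem sub (a b : L) : v (a - b) ≤ max (v a) (v b) := by
  rw [sub_eq_add_neg, ← hv.neg b]
  exact hv.add a (-b)

theorem pow (a : L) (n : ℕ) : v (a ^ n) = v a ^ n := by
  induction n with
  | zero => simp [hv.map_one]
  | succ n ih => rw [pow_succ, hv.mul, ih, pow_succ]

theorem add_le {a b : L} {c : ℝ} (ha : v a ≤ c) (hb : v b ≤ c) : v (a + b) ≤ c :=
  (hv.add a b).trans (max_le ha hb)

theorem sub_le {a b : L} {c : ℝ} (ha : v a ≤ c) (hb : v b ≤ c) : v (a - b) ≤ c :=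
  (hv.sub a b).trans (max_le ha hb)

theorem charZero : CharZero L := by
  refine charZero_of_inj_zero ?_
  intro n hn
  by_contra h
  have := hv.nat n h
  rw [hn, hv.map_zero] at this
  exact zero_ne_one this

theorem eq_zero {a : L} (h : v a = 0) : a = 0 := by
  by_contra h0
  exact (hv.pos a h0).ne' h

theorem ofNat (n : ℕ) [n.AtLeastTwo] : v (OfNat.ofNat n : L) = 1 := by
  have h := hv.nat n (by have := Nat.AtLeastTwo.prop (n := n); omega)
  exact h

theorem W_le {a b : L} {Y : ℝ} (ha : v a ≤ Y) (hb : v b ≤ Y) :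
    v (W a b (D a) (D b)) ≤ 2 * Y ^ 2 := by
  have h0 := hv.nonneg a
  have h1 := hv.nonneg b
  have h2 := hv.der a
  have h3 := hv.der b
  have h4 := hv.nonneg (D a)
  have h5 := hv.nonneg (D b)
  unfold W
  refine hv.sub_le ?_ ?_
  · rw [hv.mul]
    calc v a * v (D b) ≤ Y * (2 * Y) := by
          apply mul_le_mul ha (h3.trans (by linarith)) h5 (h0.trans ha)
      _ = 2 * Y ^ 2 := by ring
  · rw [hv.mul]
    calc v b * v (D a) ≤ Y * (2 * Y) := by
          apply mul_le_mul hb (h2.trans (by linarith)) h4 (h0.trans ha)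
      _ = 2 * Y ^ 2 := by ring

end VDF

section Alg

variable {L : Type*} [Field L]

/-- Common quotient of three proportional pairs. -/
theorem ratio {a b e p q r : L} (h1 : a * q = b * p) (h2 : a * r = e * p) (h3 : b * r = e * q)
    (hab : a ≠ 0 ∨ b ≠ 0) : ∃ N : L, a * N = p ∧ b * N = q ∧ e * N = r := by
  rcases hab with h | h
  · refine ⟨p / a, by field_simp, ?_, ?_⟩
    · field_simp
      rw [← h1, mul_comm]
    · field_simp
      rw [← h2, mul_comm]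
  · refine ⟨q / b, ?_, by field_simp, ?_⟩
    · field_simp
      rw [h1, mul_comm]
    · field_simp
      rw [← h3, mul_comm]

/-- The section `N` of the cone over the Fermat curve. -/
theorem exists_N {y1 y2 y3 d1 d2 d3 : L} (h : y3 ^ 21 = y1 ^ 21 + y2 ^ 21)
    (h' : y3 ^ 20 * d3 = y1 ^ 20 * d1 + y2 ^ 20 * d2) (hy : y1 ≠ 0 ∨ y2 ≠ 0) :
    ∃ N : L, y1 ^ 20 * N = -W y2 y3 d2 d3 ∧ y2 ^ 20 * N = W y1 y3 d1 d3 ∧
      y3 ^ 20 * N = W y1 y2 d1 d2 := by
  refine ratio ?_ ?_ ?_ ?_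
  · unfold W
    linear_combination (-d3) * h + y3 * h'
  · unfold W
    linear_combination (-d2) * h + y2 * h'
  · unfold W
    linear_combination (d1) * h - y1 * h'
  · rcases hy with h | h
    · exact Or.inl (pow_ne_zero _ h)
    · exact Or.inr (pow_ne_zero _ h)

/-- The section `N3` for the curve `y4^21 = y1^21 + s y2^21`. -/
theorem exists_N3 {s y1 y2 y4 d1 d2 d4 : L} (h : y4 ^ 21 = y1 ^ 21 + s * y2 ^ 21)
    (h' : y4 ^ 20 * d4 = y1 ^ 20 * d1 + s * (y2 ^ 20 * d2) + y2 ^ 21) (hy : y1 ≠ 0 ∨ y2 ≠ 0) :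
    ∃ N : L, y1 ^ 20 * N = y2 * y4 - s * W y2 y4 d2 d4 ∧ y2 ^ 20 * N = W y1 y4 d1 d4 ∧
      y4 ^ 20 * N = s * W y1 y2 d1 d2 + y1 * y2 := by
  refine ratio ?_ ?_ ?_ ?_
  · unfold W
    linear_combination (-d4) * h + y4 * h'
  · unfold W
    linear_combination (-(y2 + s * d2)) * h + s * y2 * h'
  · unfold W
    linear_combination (d1) * h - y1 * h'
  · rcases hy with h | h
    · exact Or.inl (pow_ne_zero _ h)
    · exact Or.inr (pow_ne_zero _ h)

/-- The section `N2` for the curve `y4^21 = (1-s) y1^21 + s y3^21`. -/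
theorem exists_N2 {s y1 y3 y4 d1 d3 d4 : L} (h : y4 ^ 21 = (1 - s) * y1 ^ 21 + s * y3 ^ 21)
    (h' : y4 ^ 20 * d4 = (1 - s) * (y1 ^ 20 * d1) + s * (y3 ^ 20 * d3) + y3 ^ 21 - y1 ^ 21)
    (hy : y1 ≠ 0 ∨ y3 ≠ 0) :
    ∃ N : L, y1 ^ 20 * N = -(s * W y3 y4 d3 d4 - y3 * y4) ∧
      y3 ^ 20 * N = (1 - s) * W y1 y4 d1 d4 + y1 * y4 ∧
      y4 ^ 20 * N = s * (1 - s) * W y1 y3 d1 d3 + y1 * y3 := by
  refine ratio ?_ ?_ ?_ ?_
  · unfold W
    linear_combination (-d4) * h + y4 * h'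
  · unfold W
    linear_combination (-(y3 + s * d3)) * h + s * y3 * h'
  · unfold W
    linear_combination ((1 - s) * d1 - y1) * h - (1 - s) * y1 * h'
  · rcases hy with h | h
    · exact Or.inl (pow_ne_zero _ h)
    · exact Or.inr (pow_ne_zero _ h)

/-- The key algebraic identity before division. -/
theorem key1 {s y1 y2 y3 N : L} (h : y3 ^ 21 = y1 ^ 21 + y2 ^ 21) :
    s ^ 2 * (y2 * y3) ^ 18 * (-((1 - s) * (y1 ^ 20 * N)) + y2 * y3) ^ 3
      + (y1 * y3) ^ 18 * (s * (1 - s) * (y2 ^ 20 * N) + y1 * y3) ^ 3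
      - (1 - s) ^ 2 * (y1 * y2) ^ 18 * (s * (y3 ^ 20 * N) + y1 * y2) ^ 3
      + th s * ((y1 * y2 * y3) ^ 18 * N ^ 3) * (y1 ^ 21 + s * y2 ^ 21) ^ 2
      = (y1 ^ 21 + s * y2 ^ 21) ^ 2 := by
  unfold th
  linear_combination ((s ^ 2 * y2 ^ 21 + y1 ^ 21)
    - 3 * N ^ 2 * (y1 * y2 * y3) ^ 19 * (s ^ 2 * (1 - s) ^ 2)
    - s * (s ^ 2 * (1 - s) ^ 2) * (y1 * y2 * y3) ^ 18 * N ^ 3 * (y3 ^ 21 + y1 ^ 21 + y2 ^ 21)) * h

end Alg

end Pool.Agent.Helper26.DC
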