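import Pool.Agent.Helper26.DC.Iso1

/-!
The functions `Ua`, `Ub` on the cones.
-/

set_option autoImplicit false

namespace Pool.Agent.Helper26.DC

/-- The truncated binomial series. -/
def S6 {R : Type*} [CommRing R] (u : R) : R :=
  1 + 7 * u + 28 * u ^ 2 + 84 * u ^ 3 + 210 * u ^ 4 + 462 * u ^ 5 + 924 * u ^ 6

/-- The function `Psi`. -/
def Psi {R : Type*} [CommRing R] (s y1 y2 y3 N1 N2 N3 : R) : R :=
  s ^ 2 * (y2 * y3) ^ 18 * N1 ^ 3 + (y1 * y3) ^ 18 * N2 ^ 3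
    - (1 - s) ^ 2 * (y1 * y2) ^ 18 * N3 ^ 3

theorem S6_unit {R : Type*} [CommRing R] (x : R) :
    x ^ 7 * S6 (1 - x) + (1 - x) ^ 7 * S6 x = 1 := by
  unfold S6; ring

theorem SS_eq {R : Type*} [CommRing R] (E x : R) : SS E (E * x) = E ^ 6 * S6 x := by
  unfold SS S6; ring

theorem GG_eq {R : Type*} [CommRing R] (t E X : R) :
    X * GG t E (E * X) = E ^ 9 * (S6 (t * X) - 1) := by
  unfold GG S6; ring

theorem hh0_smul {R : Type*} [CommRing R] (s a b N : R) :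
    hh0 s (a * N) (b * N) = N ^ 3 * hh0 s a b := by
  unfold hh0; ring

theorem hh1_smul {R : Type*} [CommRing R] (s a b N : R) :
    hh1 s (a * N) (b * N) = N ^ 3 * hh1 s a b := by
  unfold hh1; ring

theorem hh_wedge {R : Type*} [CommRing R] (s a b : R) :
    b ^ 3 * hh0 s a b - a ^ 3 * hh1 s a b = (a + s * b) ^ 6 := by
  unfold hh0 hh1; ring

section

variable {L : Type*} [Field L]

theorem key {s y1 y2 y3 y4 N N1 N2 N3 : L} (hs : s ≠ 0) (hs1 : 1 - s ≠ 0)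
    (h3 : y3 ^ 21 = y1 ^ 21 + y2 ^ 21) (h4 : y4 ^ 21 = y1 ^ 21 + s * y2 ^ 21)
    (hy : y1 ≠ 0 ∨ y2 ≠ 0)
    (hN1 : y4 ^ 20 * N1 = -((1 - s) * (y1 ^ 20 * N)) + y2 * y3)
    (hN2 : y4 ^ 20 * N2 = s * (1 - s) * (y2 ^ 20 * N) + y1 * y3)
    (hN3 : y4 ^ 20 * N3 = s * (y3 ^ 20 * N) + y1 * y2) :
    y4 ^ 18 * Psi s y1 y2 y3 N1 N2 N3 + th s * ((y1 * y2 * y3) ^ 18 * N ^ 3) = 1 := by
  by_cases hy4 : y4 = 0
  · subst hy4
    have h4' : y1 ^ 21 = -(s * y2 ^ 21) := by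
      have : (0 : L) ^ 21 = 0 := by simp
      linear_combination this - h4
    have hy2 : y2 ≠ 0 := by
      rintro rfl
      have h5 : y1 ^ 21 = 0 := by rw [h4']; simp
      have h6 : y1 = 0 := pow_eq_zero_iff (by norm_num) |>.mp h5
      rcases hy with h | h
      · exact h h6
      · exact h rfl
    have hy1 : y1 ≠ 0 := by
      rintro rfl
      have h5 : s * y2 ^ 21 = 0 := by
        have : (0 : L) ^ 21 = 0 := by simp
        linear_combination h4' - this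
      rcases mul_eq_zero.mp h5 with h | h
      · exact hs h
      · exact hy2 (pow_eq_zero_iff (by norm_num) |>.mp h)
    have hy3 : y3 ≠ 0 := by
      rintro rfl
      have h5 : (1 - s) * y2 ^ 21 = 0 := by
        have : (0 : L) ^ 21 = 0 := by simp
        linear_combination this - h3 - h4'
      rcases mul_eq_zero.mp h5 with h | h
      · exact hs1 h
      · exact hy2 (pow_eq_zero_iff (by norm_num) |>.mp h)
    have e0 : (0 : L) ^ 20 = 0 := by simp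
    have e1 : (1 - s) * (y1 ^ 20 * N) = y2 * y3 := by
      linear_combination hN1 - N1 * e0
    have e2 : s * (1 - s) * (y2 ^ 20 * N) = -(y1 * y3) := by
      linear_combination N2 * e0 - hN2
    have e3 : s * (y3 ^ 20 * N) = -(y1 * y2) := by
      linear_combination N3 * e0 - hN3
    have hprod : y1 * y2 * y3 ≠ 0 := mul_ne_zero (mul_ne_zero hy1 hy2) hy3
    apply mul_left_cancel₀ (pow_ne_zero 2 hprod)
    have e4 : ((1 - s) * (y1 ^ 20 * N)) * (s * (1 - s) * (y2 ^ 20 * N)) * (s * (y3 ^ 20 * N))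
        = (y2 * y3) * (-(y1 * y3)) * (-(y1 * y2)) := by rw [e1, e2, e3]
    have e5 : (0 : L) ^ 18 = 0 := by simp
    rw [e5]
    unfold th
    linear_combination e4
  · have h := key1 (s := s) (N := N) h3
    have e1 : -((1 - s) * (y1 ^ 20 * N)) + y2 * y3 = y4 ^ 20 * N1 := hN1.symm
    rw [e1, ← hN2, ← hN3, ← h4] at h
    apply mul_left_cancel₀ (pow_ne_zero 42 hy4)
    unfold Psi
    linear_combination h

theorem Ub0_eq {s y1 y2 y3 y4 d2 d3 d4 N1 N2 N3 : L}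
    (h3 : y3 ^ 21 = y1 ^ 21 + y2 ^ 21)
    (a1 : y3 ^ 20 * N1 = y2 * y4 - (s - 1) * W y2 y4 d2 d4)
    (a2 : y2 ^ 20 * N1 = W y3 y4 d3 d4)
    (b1 : y1 ^ 20 * N2 = -(s * W y3 y4 d3 d4 - y3 * y4))
    (c1 : y1 ^ 20 * N3 = y2 * y4 - s * W y2 y4 d2 d4) :
    Ub0 s y1 y2 y3 y4 d2 d3 d4 = Psi s y1 y2 y3 N1 N2 N3 * y1 ^ 63 := by
  have e1 : y3 * ((1 - s) * W y2 y4 d2 d4 + y2 * y4) - y2 * W y3 y4 d3 d4 = y1 ^ 21 * N1 := by
    linear_combination (-y3) * a1 + y2 * a2 + N1 * h3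
  have e2 : -(y1 * (s * W y3 y4 d3 d4 - y3 * y4)) = y1 ^ 21 * N2 := by
    linear_combination (-y1) * b1
  have e3 : y1 * (y2 * y4 - s * W y2 y4 d2 d4) = y1 ^ 21 * N3 := by
    linear_combination (-y1) * c1
  unfold Ub0 Psi
  rw [e1, e2, e3]
  ring

theorem Ub1_eq {s y1 y2 y3 y4 d1 d2 d3 d4 N N1 N2 N3 : L}
    (h3 : y3 ^ 21 = y1 ^ 21 + y2 ^ 21)
    (n1 : y1 ^ 20 * N = -W y2 y3 d2 d3) (n2 : y2 ^ 20 * N = W y1 y3 d1 d3)
    (n3 : y3 ^ 20 * N = W y1 y2 d1 d2)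
    (a2 : y2 ^ 20 * N1 = W y3 y4 d3 d4)
    (b1 : y1 ^ 20 * N2 = -(s * W y3 y4 d3 d4 - y3 * y4))
    (b2 : y3 ^ 20 * N2 = (1 - s) * W y1 y4 d1 d4 + y1 * y4)
    (c2 : y2 ^ 20 * N3 = W y1 y4 d1 d4) :
    Ub1 s y1 y2 y3 y4 d1 d2 d3 d4 = Psi s y1 y2 y3 N1 N2 N3 * y2 ^ 63
      - th s ^ 7 * y1 ^ 63 * (y2 * y3) ^ 126
        * S6 (1 - th s * ((y1 * y2 * y3) ^ 18 * N ^ 3)) := by
  have e1 : y2 * W y3 y4 d3 d4 = y2 ^ 21 * N1 := by
    linear_combination (-y2) * a2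
  have e2 : y3 * ((1 - s) * W y1 y4 d1 d4 + y1 * y4) + y1 * (s * W y3 y4 d3 d4 - y3 * y4)
      = y2 ^ 21 * N2 := by
    linear_combination (-y3) * b2 + y1 * b1 + N2 * h3
  have e3 : y2 * W y1 y4 d1 d4 = y2 ^ 21 * N3 := by
    linear_combination (-y2) * c2
  have e4 : (y1 * y2 * y3) ^ 2 + th s * (W y1 y2 d1 d2 * W y1 y3 d1 d3 * W y2 y3 d2 d3)
      = (y1 * y2 * y3) ^ 2 * (1 - th s * ((y1 * y2 * y3) ^ 18 * N ^ 3)) := by
    have : W y2 y3 d2 d3 = -(y1 ^ 20 * N) := by rw [n1]; ring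
    rw [this, ← n2, ← n3]
    ring
  unfold Ub1 Psi
  rw [e1, e2, e3, e4, SS_eq]
  ring

theorem Ua_eq {s z1 z2 z3 d1 d2 d3 N : L}
    (n1 : z1 ^ 20 * N = -W z2 z3 d2 d3) (n2 : z2 ^ 20 * N = W z1 z3 d1 d3)
    (n3 : z3 ^ 20 * N = W z1 z2 d1 d2) :
    Ua0 s z1 z2 z3 d1 d2 d3 = N ^ 3 * z1 ^ 63
        - hh0 s (z1 ^ 21) (z2 ^ 21) * S6 (th s * ((z1 * z2 * z3) ^ 18 * N ^ 3)) ∧
    Ua1 s z1 z2 z3 d1 d2 d3 = N ^ 3 * z2 ^ 63
        - hh1 s (z1 ^ 21) (z2 ^ 21) * S6 (th s * ((z1 * z2 * z3) ^ 18 * N ^ 3)) := by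
  have e1 : -(z1 * W z2 z3 d2 d3) = z1 ^ 21 * N := by
    linear_combination (-z1) * n1
  have e2 : z2 * W z1 z3 d1 d3 = z2 ^ 21 * N := by
    linear_combination (-z2) * n2
  have e3 : -(W z1 z2 d1 d2 * W z1 z3 d1 d3 * W z2 z3 d2 d3)
      = (z1 * z2 * z3) ^ 2 * ((z1 * z2 * z3) ^ 18 * N ^ 3) := by
    have : W z2 z3 d2 d3 = -(z1 ^ 20 * N) := by rw [n1]; ring
    rw [this, ← n2, ← n3]
    ring
  have e4 : N ^ 3 * GG (th s) ((z1 * z2 * z3) ^ 2)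
      ((z1 * z2 * z3) ^ 2 * ((z1 * z2 * z3) ^ 18 * N ^ 3))
      = S6 (th s * ((z1 * z2 * z3) ^ 18 * N ^ 3)) - 1 := by
    unfold GG S6
    ring
  constructor
  · unfold Ua0
    rw [e1, e2, e3, hh0_smul]
    linear_combination (-hh0 s (z1 ^ 21) (z2 ^ 21)) * e4
  · unfold Ua1
    rw [e1, e2, e3, hh1_smul]
    linear_combination (-hh1 s (z1 ^ 21) (z2 ^ 21)) * e4

end

end Pool.Agent.Helper26.DC
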