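import Pool.Agent.Helper26.DC.Iso2

/-!
Derivative relations and size estimates on the cones.
-/

set_option autoImplicit false

namespace Pool.Agent.Helper26.DC

variable {L : Type*} [Field L] {D : Derivation ℤ L L} {v : L → ℝ}

theorem D_pow21 (D : Derivation ℤ L L) (y : L) : D (y ^ 21) = 21 * (y ^ 20 * D y) := by
  rw [Derivation.leibniz_pow]
  simp

theorem VDF.rel3 (hv : VDF D v) {y1 y2 y3 : L} (h3 : y3 ^ 21 = y1 ^ 21 + y2 ^ 21) :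
    y3 ^ 20 * D y3 = y1 ^ 20 * D y1 + y2 ^ 20 * D y2 := by
  have hc := hv.charZero
  have h := congrArg D h3
  rw [map_add, D_pow21, D_pow21, D_pow21] at h
  have h21 : (21 : L) ≠ 0 := by norm_num
  apply mul_left_cancel₀ h21
  linear_combination h

theorem VDF.rel4 (hv : VDF D v) {s y1 y2 y4 : L} (hs : D s = 21)
    (h4 : y4 ^ 21 = y1 ^ 21 + s * y2 ^ 21) :
    y4 ^ 20 * D y4 = y1 ^ 20 * D y1 + s * (y2 ^ 20 * D y2) + y2 ^ 21 := by
  have hc := hv.charZero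
  have h := congrArg D h4
  rw [map_add, Derivation.leibniz, D_pow21, D_pow21, D_pow21, hs] at h
  simp only [smul_eq_mul] at h
  have h21 : (21 : L) ≠ 0 := by norm_num
  apply mul_left_cancel₀ h21
  linear_combination h

/-- From a defining relation to a bound. -/
theorem VDF.quot_le (hv : VDF D v) {a N p : L} {Y : ℝ} (hY : 0 < Y) (ha : v a = Y)
    (h : a ^ 20 * N = p) (hp : v p ≤ 2 * Y ^ 2) : v N * Y ^ 18 ≤ 2 := by
  have h1 : Y ^ 20 * v N ≤ 2 * Y ^ 2 := by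
    rw [← ha, ← hv.pow, ← hv.mul, h, ha]
    exact hp
  have h2 : Y ^ 2 * (v N * Y ^ 18) ≤ Y ^ 2 * 2 := by
    calc Y ^ 2 * (v N * Y ^ 18) = Y ^ 20 * v N := by ring
      _ ≤ 2 * Y ^ 2 := h1
      _ = Y ^ 2 * 2 := by ring
  exact le_of_mul_le_mul_left h2 (by positivity)

theorem max_eq_cases (a b : ℝ) : (a = max a b ∧ b ≤ a) ∨ (b = max a b ∧ a ≤ b) := by
  rcases le_total a b with h | h
  · right; exact ⟨(max_eq_right h).symm, h⟩
  · left; exact ⟨(max_eq_left h).symm, h⟩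

theorem pow21_le {a b : ℝ} (hb : 0 ≤ b) (h : a ^ 21 ≤ b ^ 21) : a ≤ b := by
  by_contra hcon
  push Not at hcon
  exact absurd h (not_le.mpr (pow_lt_pow_left₀ hcon hb (by norm_num)))

/-- If `c^21 = a^21 + t b^21` with `t` of size at most one, then `c` is bounded. -/
theorem VDF.root_le (hv : VDF D v) {a b c t : L} {Y : ℝ} (ht : v t ≤ 1) (ha : v a ≤ Y)
    (hb : v b ≤ Y) (h : c ^ 21 = a ^ 21 + t * b ^ 21) : v c ≤ Y := by
  have h0 := hv.nonneg a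
  have h1 := hv.nonneg b
  have hY : 0 ≤ Y := h0.trans ha
  apply pow21_le hY
  rw [← hv.pow, h]
  refine hv.add_le ?_ ?_
  · rw [hv.pow]
    exact pow_le_pow_left₀ h0 ha _
  · rw [hv.mul, hv.pow]
    calc v t * v b ^ 21 ≤ 1 * Y ^ 21 := by
          apply mul_le_mul ht (pow_le_pow_left₀ h1 hb _) (by positivity) zero_le_one
      _ = Y ^ 21 := one_mul _

/-- Bound for `N` on the Fermat cone. -/
theorem VDF.N_le (hv : VDF D v) {y1 y2 y3 N : L} {Y : ℝ} (hY : 0 < Y)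
    (hY12 : Y = max (v y1) (v y2)) (hy3 : v y3 ≤ Y)
    (n1 : y1 ^ 20 * N = -W y2 y3 (D y2) (D y3)) (n2 : y2 ^ 20 * N = W y1 y3 (D y1) (D y3)) :
    v N * Y ^ 18 ≤ 2 := by
  have hy1 : v y1 ≤ Y := by rw [hY12]; exact le_max_left _ _
  have hy2 : v y2 ≤ Y := by rw [hY12]; exact le_max_right _ _
  rcases max_eq_cases (v y1) (v y2) with ⟨h, _⟩ | ⟨h, _⟩
  · refine hv.quot_le hY (h.trans hY12.symm) n1 ?_
    rw [hv.neg]
    exact hv.W_le hy2 hy3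
  · exact hv.quot_le hY (h.trans hY12.symm) n2 (hv.W_le hy1 hy3)

theorem VDF.mul_sq_le (hv : VDF D v) {a b : L} {Y : ℝ} (ha : v a ≤ Y) (hb : v b ≤ Y) :
    v (a * b) ≤ 2 * Y ^ 2 := by
  have h0 := hv.nonneg a
  have h1 := hv.nonneg b
  rw [hv.mul]
  have hY : 0 ≤ Y := h0.trans ha
  calc v a * v b ≤ Y * Y := mul_le_mul ha hb h1 hY
    _ ≤ 2 * Y ^ 2 := by nlinarith

theorem VDF.unit_mul_le (hv : VDF D v) {a b : L} {c : ℝ} (ha : v a ≤ 1) (hb : v b ≤ c) :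
    v (a * b) ≤ c := by
  rw [hv.mul]
  have h0 := hv.nonneg a
  have h1 := hv.nonneg b
  calc v a * v b ≤ 1 * v b := mul_le_mul_of_nonneg_right ha h1
    _ ≤ c := by rw [one_mul]; exact hb

theorem VDF.Psi_le (hv : VDF D v) {s y1 y2 y3 N1 N2 N3 : L} {Y : ℝ} (hY : 0 < Y)
    (hs : v s ≤ 1) (hs1 : v (1 - s) ≤ 1)
    (hy1 : v y1 ≤ Y) (hy2 : v y2 ≤ Y) (hy3 : v y3 ≤ Y)
    (h1 : v N1 * Y ^ 18 ≤ 2) (h2 : v N2 * Y ^ 18 ≤ 2) (h3 : v N3 * Y ^ 18 ≤ 2) :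
    v (Psi s y1 y2 y3 N1 N2 N3) * Y ^ 18 ≤ 8 := by
  have key : ∀ (a b N : L), v a ≤ Y → v b ≤ Y → v N * Y ^ 18 ≤ 2 →
      v ((a * b) ^ 18 * N ^ 3) * Y ^ 18 ≤ 8 := by
    intro a b N ha hb hN
    have ha0 := hv.nonneg a
    have hb0 := hv.nonneg b
    have hN0 := hv.nonneg N
    rw [hv.mul, hv.pow, hv.mul, hv.pow]
    calc (v a * v b) ^ 18 * v N ^ 3 * Y ^ 18 ≤ (Y * Y) ^ 18 * v N ^ 3 * Y ^ 18 := by
          gcongr
      _ = (v N * Y ^ 18) ^ 3 := by ring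
      _ ≤ 2 ^ 3 := by gcongr
      _ = 8 := by norm_num
  have hY18 : (0 : ℝ) < Y ^ 18 := by positivity
  rw [← le_div_iff₀ hY18]
  unfold Psi
  refine hv.sub_le (hv.add_le ?_ ?_) ?_
  · rw [mul_assoc]
    refine hv.unit_mul_le ?_ ?_
    · rw [hv.pow]; exact pow_le_one₀ (hv.nonneg _) hs
    · rw [le_div_iff₀ hY18]; exact key _ _ _ hy2 hy3 h1
  · rw [le_div_iff₀ hY18]; exact key _ _ _ hy1 hy3 h2
  · rw [mul_assoc]
    refine hv.unit_mul_le ?_ ?_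
    · rw [hv.pow]; exact pow_le_one₀ (hv.nonneg _) hs1
    · rw [le_div_iff₀ hY18]; exact key _ _ _ hy1 hy2 h3

/-- The structure of the functions on the `y` cone. -/
theorem VDF.ystruct (hv : VDF D v) {s y1 y2 y3 y4 : L} {Y : ℝ} (hs : D s = 21) (hvs : v s = 1)
    (hv1s : v (1 - s) = 1)
    (h3 : y3 ^ 21 = y1 ^ 21 + y2 ^ 21) (h4 : y4 ^ 21 = y1 ^ 21 + s * y2 ^ 21)
    (hY : 0 < Y) (hY12 : Y = max (v y1) (v y2)) :
    v y3 ≤ Y ∧ v y4 ≤ Y ∧ ∃ N Ps : L,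
      y1 ^ 20 * N = -W y2 y3 (D y2) (D y3) ∧ y2 ^ 20 * N = W y1 y3 (D y1) (D y3) ∧
      y3 ^ 20 * N = W y1 y2 (D y1) (D y2) ∧
      y4 ^ 18 * Ps + th s * ((y1 * y2 * y3) ^ 18 * N ^ 3) = 1 ∧
      Ub0 s y1 y2 y3 y4 (D y2) (D y3) (D y4) = Ps * y1 ^ 63 ∧
      Ub1 s y1 y2 y3 y4 (D y1) (D y2) (D y3) (D y4) = Ps * y2 ^ 63
        - th s ^ 7 * y1 ^ 63 * (y2 * y3) ^ 126
          * S6 (1 - th s * ((y1 * y2 * y3) ^ 18 * N ^ 3)) ∧
      v N * Y ^ 18 ≤ 2 ∧ v Ps * Y ^ 18 ≤ 8 := by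
  have hy1 : v y1 ≤ Y := by rw [hY12]; exact le_max_left _ _
  have hy2 : v y2 ≤ Y := by rw [hY12]; exact le_max_right _ _
  have hy3 : v y3 ≤ Y := hv.root_le (t := 1) hv.map_one.le hy1 hy2 (by rw [h3]; ring)
  have hy4 : v y4 ≤ Y := hv.root_le hvs.le hy1 hy2 h4
  refine ⟨hy3, hy4, ?_⟩
  have r3 := hv.rel3 h3
  have r4 := hv.rel4 hs h4
  have hne : y1 ≠ 0 ∨ y2 ≠ 0 := by
    by_contra hcon
    push Not at hcon
    rw [hcon.1, hcon.2, hv.map_zero, max_self] at hY12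
    exact hY.ne' hY12
  have hs0 : s ≠ 0 := by
    rintro rfl
    rw [hv.map_zero] at hvs
    exact zero_ne_one hvs
  have hs10 : 1 - s ≠ 0 := by
    intro h
    rw [h, hv.map_zero] at hv1s
    exact zero_ne_one hv1s
  obtain ⟨N, n1, n2, n3⟩ := exists_N h3 r3 hne
  obtain ⟨N3, c1, c2, c3⟩ := exists_N3 h4 r4 hne
  have h4' : y4 ^ 21 = y3 ^ 21 + (s - 1) * y2 ^ 21 := by
    linear_combination h4 - h3
  have r4' : y4 ^ 20 * D y4 = y3 ^ 20 * D y3 + (s - 1) * (y2 ^ 20 * D y2) + y2 ^ 21 := by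
    linear_combination r4 - r3
  have hmax32 : Y = max (v y3) (v y2) := by
    apply le_antisymm
    · rw [hY12]
      refine max_le ?_ (le_max_right _ _)
      refine hv.root_le (a := y3) (b := y2) (t := -1) ?_ (le_max_left _ _) (le_max_right _ _) ?_
      · rw [hv.neg_one]
      · rw [h3]; ring
    · exact max_le hy3 hy2
  have hne32 : y3 ≠ 0 ∨ y2 ≠ 0 := by
    by_contra hcon
    push Not at hcon
    rw [hcon.1, hcon.2, hv.map_zero, max_self] at hmax32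
    exact hY.ne' hmax32
  obtain ⟨N1, a1, a2, a3⟩ := exists_N3 h4' r4' hne32
  have h4'' : y4 ^ 21 = (1 - s) * y1 ^ 21 + s * y3 ^ 21 := by
    linear_combination h4 - s * h3
  have r4'' : y4 ^ 20 * D y4
      = (1 - s) * (y1 ^ 20 * D y1) + s * (y3 ^ 20 * D y3) + y3 ^ 21 - y1 ^ 21 := by
    linear_combination r4 - s * r3 - h3
  have hmax13 : Y = max (v y1) (v y3) := by
    apply le_antisymm
    · rw [hY12]
      refine max_le (le_max_left _ _) ?_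
      refine hv.root_le (a := y3) (b := y1) (t := -1) ?_ (le_max_right _ _) (le_max_left _ _) ?_
      · rw [hv.neg_one]
      · rw [h3]; ring
    · exact max_le hy1 hy3
  have hne13 : y1 ≠ 0 ∨ y3 ≠ 0 := by
    by_contra hcon
    push Not at hcon
    rw [hcon.1, hcon.2, hv.map_zero, max_self] at hmax13
    exact hY.ne' hmax13
  obtain ⟨N2, b1, b2, b3⟩ := exists_N2 h4'' r4'' hne13
  have hNle := hv.N_le hY hY12 hy3 n1 n2
  have hs1le : v (s - 1) ≤ 1 := by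
    rw [← hv.neg, neg_sub, hv1s]
  have hN1le : v N1 * Y ^ 18 ≤ 2 := by
    rcases max_eq_cases (v y3) (v y2) with ⟨h, _⟩ | ⟨h, _⟩
    · refine hv.quot_le hY (h.trans hmax32.symm) a1 ?_
      exact hv.sub_le (hv.mul_sq_le hy2 hy4) (hv.unit_mul_le hs1le (hv.W_le hy2 hy4))
    · exact hv.quot_le hY (h.trans hmax32.symm) a2 (hv.W_le hy3 hy4)
  have hN3le : v N3 * Y ^ 18 ≤ 2 := by
    rcases max_eq_cases (v y1) (v y2) with ⟨h, _⟩ | ⟨h, _⟩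
    · refine hv.quot_le hY (h.trans hY12.symm) c1 ?_
      exact hv.sub_le (hv.mul_sq_le hy2 hy4) (hv.unit_mul_le hvs.le (hv.W_le hy2 hy4))
    · exact hv.quot_le hY (h.trans hY12.symm) c2 (hv.W_le hy1 hy4)
  have hN2le : v N2 * Y ^ 18 ≤ 2 := by
    rcases max_eq_cases (v y1) (v y3) with ⟨h, _⟩ | ⟨h, _⟩
    · refine hv.quot_le hY (h.trans hmax13.symm) b1 ?_
      rw [hv.neg]
      exact hv.sub_le (hv.unit_mul_le hvs.le (hv.W_le hy3 hy4)) (hv.mul_sq_le hy3 hy4)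
    · refine hv.quot_le hY (h.trans hmax13.symm) b2 ?_
      exact hv.add_le (hv.unit_mul_le hv1s.le (hv.W_le hy1 hy4)) (hv.mul_sq_le hy1 hy4)
  refine ⟨N, Psi s y1 y2 y3 N1 N2 N3, n1, n2, n3, ?_, ?_, ?_, hNle, ?_⟩
  · refine key hs0 hs10 h3 h4 hne ?_ ?_ ?_
    · rw [a3, n1]; unfold W; ring
    · rw [b3, n2]
    · rw [c3, n3]
  · exact Ub0_eq h3 a1 a2 b1 c1
  · exact Ub1_eq h3 n1 n2 n3 a2 b1 b2 c2
  · exact hv.Psi_le hY hvs.le hv1s.le hy1 hy2 hy3 hN1le hN2le hN3le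

end Pool.Agent.Helper26.DC
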