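import Pool.Agent.Helper26.DC.Iso3

/-!
The three cases of the isolation theorem.
-/

set_option autoImplicit false

namespace Pool.Agent.Helper26.DC

variable {L : Type*} [Field L] {D : Derivation ℤ L L} {v : L → ℝ}

theorem VDF.ofNat_mul_le (hv : VDF D v) (n : ℕ) [n.AtLeastTwo] {a : L} {c : ℝ} (ha : v a ≤ c) :
    v ((OfNat.ofNat n : L) * a) ≤ c :=
  hv.unit_mul_le (hv.ofNat n).le ha

theorem VDF.S6_le (hv : VDF D v) {u : L} {c : ℝ} (hc : 1 ≤ c) (hu : v u ≤ c) :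
    v (S6 u) ≤ c ^ 6 := by
  have hu0 := hv.nonneg u
  have h : ∀ k : ℕ, k ≤ 6 → v (u ^ k) ≤ c ^ 6 := by
    intro k hk
    rw [hv.pow]
    calc v u ^ k ≤ c ^ k := pow_le_pow_left₀ hu0 hu k
      _ ≤ c ^ 6 := pow_le_pow_right₀ hc hk
  have h0 : v (1 : L) ≤ c ^ 6 := by
    rw [hv.map_one]
    exact one_le_pow₀ hc
  have h1 : v u ≤ c ^ 6 := by simpa using h 1 (by norm_num)
  unfold S6
  refine hv.add_le (hv.add_le (hv.add_le (hv.add_le (hv.add_le (hv.add_le h0 ?_) ?_) ?_) ?_) ?_) ?_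
  · exact hv.ofNat_mul_le 7 h1
  · exact hv.ofNat_mul_le 28 (h 2 (by norm_num))
  · exact hv.ofNat_mul_le 84 (h 3 (by norm_num))
  · exact hv.ofNat_mul_le 210 (h 4 (by norm_num))
  · exact hv.ofNat_mul_le 462 (h 5 (by norm_num))
  · exact hv.ofNat_mul_le 924 (h 6 (by norm_num))

theorem VDF.S6_ne_zero (hv : VDF D v) {u : L} (hu : v u < 1) : S6 u ≠ 0 := by
  intro h
  have hu0 := hv.nonneg u
  have h1 : (1 : L) = -(u * (7 + 28 * u + 84 * u ^ 2 + 210 * u ^ 3 + 462 * u ^ 4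
      + 924 * u ^ 5)) := by
    unfold S6 at h
    linear_combination h
  have h2 : v (7 + 28 * u + 84 * u ^ 2 + 210 * u ^ 3 + 462 * u ^ 4 + 924 * u ^ 5) ≤ 1 := by
    have hk : ∀ k : ℕ, v (u ^ k) ≤ 1 := by
      intro k
      rw [hv.pow]
      exact pow_le_one₀ hu0 hu.le
    refine hv.add_le (hv.add_le (hv.add_le (hv.add_le (hv.add_le ?_ ?_) ?_) ?_) ?_) ?_
    · exact (hv.ofNat 7).le
    · exact hv.ofNat_mul_le 28 hu.le
    · exact hv.ofNat_mul_le 84 (hk 2)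
    · exact hv.ofNat_mul_le 210 (hk 3)
    · exact hv.ofNat_mul_le 462 (hk 4)
    · exact hv.ofNat_mul_le 924 (hk 5)
  have h3 := congrArg v h1
  rw [hv.map_one, hv.neg, hv.mul] at h3
  have h4 : v u * v (7 + 28 * u + 84 * u ^ 2 + 210 * u ^ 3 + 462 * u ^ 4 + 924 * u ^ 5)
      ≤ v u * 1 := mul_le_mul_of_nonneg_left h2 hu0
  linarith

theorem VDF.hh0_le (hv : VDF D v) {s a b : L} {c : ℝ} (hs : v s ≤ 1) (ha : v a ≤ c)
    (hb : v b ≤ c) : v (hh0 s a b) ≤ c ^ 3 := by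
  have ha0 := hv.nonneg a
  have hb0 := hv.nonneg b
  have hs' : ∀ k : ℕ, v (s ^ k) ≤ 1 := by
    intro k; rw [hv.pow]; exact pow_le_one₀ (hv.nonneg _) hs
  have hc : 0 ≤ c := ha0.trans ha
  have e1 : v (b ^ 3) ≤ c ^ 3 := by rw [hv.pow]; exact pow_le_pow_left₀ hb0 hb 3
  have e2 : v (a ^ 3) ≤ c ^ 3 := by rw [hv.pow]; exact pow_le_pow_left₀ ha0 ha 3
  have e3 : v (a * b ^ 2) ≤ c ^ 3 := by
    rw [hv.mul, hv.pow]
    calc v a * v b ^ 2 ≤ c * c ^ 2 := by gcongr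
      _ = c ^ 3 := by ring
  have e4 : v (a ^ 2 * b) ≤ c ^ 3 := by
    rw [hv.mul, hv.pow]
    calc v a ^ 2 * v b ≤ c ^ 2 * c := by gcongr
      _ = c ^ 3 := by ring
  unfold hh0
  refine hv.add_le (hv.add_le (hv.add_le ?_ ?_) ?_) ?_
  · exact hv.unit_mul_le (hs' 6) e1
  · rw [mul_assoc]
    exact hv.ofNat_mul_le 6 (hv.unit_mul_le (hs' 5) e3)
  · rw [mul_assoc]
    exact hv.ofNat_mul_le 15 (hv.unit_mul_le (hs' 4) e4)
  · rw [mul_assoc]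
    exact hv.ofNat_mul_le 20 (hv.unit_mul_le (hs' 3) e2)

theorem VDF.hh1_le (hv : VDF D v) {s a b : L} {c : ℝ} (hs : v s ≤ 1) (ha : v a ≤ c)
    (hb : v b ≤ c) : v (hh1 s a b) ≤ c ^ 3 := by
  have ha0 := hv.nonneg a
  have hb0 := hv.nonneg b
  have hs' : ∀ k : ℕ, v (s ^ k) ≤ 1 := by
    intro k; rw [hv.pow]; exact pow_le_one₀ (hv.nonneg _) hs
  have hc : 0 ≤ c := ha0.trans ha
  have e2 : v (a ^ 3) ≤ c ^ 3 := by rw [hv.pow]; exact pow_le_pow_left₀ ha0 ha 3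
  have e3 : v (a * b ^ 2) ≤ c ^ 3 := by
    rw [hv.mul, hv.pow]
    calc v a * v b ^ 2 ≤ c * c ^ 2 := by gcongr
      _ = c ^ 3 := by ring
  have e4 : v (a ^ 2 * b) ≤ c ^ 3 := by
    rw [hv.mul, hv.pow]
    calc v a ^ 2 * v b ≤ c ^ 2 * c := by gcongr
      _ = c ^ 3 := by ring
  unfold hh1
  rw [hv.neg]
  refine hv.add_le (hv.add_le ?_ ?_) e2
  · rw [mul_assoc]
    exact hv.ofNat_mul_le 15 (hv.unit_mul_le (hs' 2) e3)
  · rw [mul_assoc]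
    exact hv.ofNat_mul_le 6 (hv.unit_mul_le hs e4)

theorem VDF.th_le (hv : VDF D v) {s : L} (hs : v s = 1) (hs1 : v (1 - s) = 1) :
    v (th s) = 1 := by
  unfold th
  rw [hv.mul, hv.pow, hv.pow, hs, hs1]
  norm_num

/-- Bound for the degree zero function `X`. -/
theorem VDF.X_le (hv : VDF D v) {y1 y2 y3 N : L} {Y : ℝ}
    (hy1 : v y1 ≤ Y) (hy2 : v y2 ≤ Y) (hy3 : v y3 ≤ Y) :
    v ((y1 * y2 * y3) ^ 18 * N ^ 3) ≤ (v N * Y ^ 18) ^ 3 := by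
  have h1 := hv.nonneg y1
  have h2 := hv.nonneg y2
  have h3 := hv.nonneg y3
  have hN := hv.nonneg N
  have hY : 0 ≤ Y := h1.trans hy1
  rw [hv.mul, hv.pow, hv.pow, hv.mul, hv.mul]
  calc (v y1 * v y2 * v y3) ^ 18 * v N ^ 3 ≤ (Y * Y * Y) ^ 18 * v N ^ 3 := by gcongr
    _ = (v N * Y ^ 18) ^ 3 := by ring

theorem VDF.max_pos_iff (hv : VDF D v) {a b : L} (h : 0 < max (v a) (v b)) : a ≠ 0 ∨ b ≠ 0 := by
  by_contra hcon
  push Not at hcon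
  rw [hcon.1, hcon.2, hv.map_zero, max_self] at h
  exact lt_irrefl _ h

/-- Case `z = 0`. -/
theorem VDF.case3 (hv : VDF D v) {s y1 y2 y3 y4 : L} {Y : ℝ} (hs : D s = 21) (hvs : v s = 1)
    (hv1s : v (1 - s) = 1)
    (h3 : y3 ^ 21 = y1 ^ 21 + y2 ^ 21) (h4 : y4 ^ 21 = y1 ^ 21 + s * y2 ^ 21)
    (hY : 0 < Y) (hY12 : Y = max (v y1) (v y2))
    (e0 : Ub0 s y1 y2 y3 y4 (D y2) (D y3) (D y4) = 0)
    (e1 : Ub1 s y1 y2 y3 y4 (D y1) (D y2) (D y3) (D y4) = 0) : False := by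
  obtain ⟨hy3, hy4, N, Ps, n1, n2, n3, hkey, hu0, hu1, hN, hPs⟩ :=
    hv.ystruct hs hvs hv1s h3 h4 hY hY12
  rw [e0] at hu0
  rw [e1] at hu1
  have hne : y1 ≠ 0 ∨ y2 ≠ 0 := hv.max_pos_iff (hY12 ▸ hY)
  have hPs0 : Ps = 0 := by
    by_cases hy1 : y1 = 0
    · have hy2 : y2 ≠ 0 := by
        rcases hne with h | h
        · exact absurd hy1 h
        · exact h
      have h5 : Ps * y2 ^ 63 = 0 := by
        rw [hy1] at hu1
        have : (0 : L) ^ 63 = 0 := by simp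
        rw [this] at hu1
        linear_combination -hu1
      rcases mul_eq_zero.mp h5 with h | h
      · exact h
      · exact absurd h (pow_ne_zero _ hy2)
    · rcases mul_eq_zero.mp hu0.symm with h | h
      · exact h
      · exact absurd h (pow_ne_zero _ hy1)
  rw [hPs0, mul_zero, zero_add] at hkey
  rw [hPs0, zero_mul, hkey, sub_self] at hu1
  have hS : S6 (0 : L) = 1 := by unfold S6; ring
  rw [hS, mul_one] at hu1
  have hth : th s ≠ 0 := by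
    intro h
    rw [h, zero_mul] at hkey
    exact zero_ne_one hkey
  have hprod : y1 * y2 * y3 ≠ 0 := by
    intro h
    rw [h] at hkey
    have : (0 : L) ^ 18 = 0 := by simp
    rw [this, zero_mul, mul_zero] at hkey
    exact zero_ne_one hkey
  have hy1 : y1 ≠ 0 := fun h => hprod (by rw [h]; ring)
  have hy2 : y2 ≠ 0 := fun h => hprod (by rw [h]; ring)
  have hy3' : y3 ≠ 0 := fun h => hprod (by rw [h]; ring)
  have h6 : th s ^ 7 * y1 ^ 63 * (y2 * y3) ^ 126 = 0 := by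
    linear_combination hu1
  have h7 : th s ^ 7 * y1 ^ 63 * (y2 * y3) ^ 126 ≠ 0 :=
    mul_ne_zero (mul_ne_zero (pow_ne_zero _ hth) (pow_ne_zero _ hy1))
      (pow_ne_zero _ (mul_ne_zero hy2 hy3'))
  exact h7 h6

theorem pow_eq_of_pow21 {a b : ℝ} (ha : 0 ≤ a) (hb : 0 ≤ b) (h : a ^ 21 = b ^ 21) : a = b :=
  le_antisymm (pow21_le hb h.le) (pow21_le ha h.ge)

/-- Case `y = 0`. -/
theorem VDF.case2 (hv : VDF D v) {s z1 z2 z3 : L} {Z : ℝ} (hs : D s = 21) (hvs : v s = 1)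
    (hv1s : v (1 - s) = 1)
    (h3 : z3 ^ 21 = z1 ^ 21 + z2 ^ 21)
    (hZ : 0 < Z) (hZ12 : Z = max (v z1) (v z2)) (hZs : Z ≤ (1 / 2) ^ 20)
    (e0 : Ua0 s z1 z2 z3 (D z1) (D z2) (D z3) = 0)
    (e1 : Ua1 s z1 z2 z3 (D z1) (D z2) (D z3) = 0) : False := by
  have hne : z1 ≠ 0 ∨ z2 ≠ 0 := hv.max_pos_iff (hZ12 ▸ hZ)
  have hz1 : v z1 ≤ Z := by rw [hZ12]; exact le_max_left _ _
  have hz2 : v z2 ≤ Z := by rw [hZ12]; exact le_max_right _ _
  have hz3 : v z3 ≤ Z := hv.root_le (t := 1) hv.map_one.le hz1 hz2 (by rw [h3]; ring)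
  have hz10 := hv.nonneg z1
  have hz20 := hv.nonneg z2
  have hz30 := hv.nonneg z3
  obtain ⟨N, n1, n2, n3⟩ := exists_N h3 (hv.rel3 h3) hne
  have hN0 := hv.nonneg N
  have hNle := hv.N_le hZ hZ12 hz3 n1 n2
  obtain ⟨hu0, hu1⟩ := Ua_eq (s := s) n1 n2 n3
  rw [e0] at hu0
  rw [e1] at hu1
  set X : L := (z1 * z2 * z3) ^ 18 * N ^ 3 with hX
  have hXle : v X ≤ (v N * Z ^ 18) ^ 3 := hv.X_le hz1 hz2 hz3
  have hth := hv.th_le hvs hv1s
  have hthX : v (th s * X) = v X := by rw [hv.mul, hth, one_mul]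
  have hX8 : v (th s * X) ≤ 8 := by
    rw [hthX]
    calc v X ≤ (v N * Z ^ 18) ^ 3 := hXle
      _ ≤ 2 ^ 3 := by gcongr
      _ = 8 := by norm_num
  set P : L := S6 (th s * X) with hP
  have hPle : v P ≤ 8 ^ 6 := hv.S6_le (by norm_num) hX8
  have hl1 : v (z1 ^ 21) ≤ Z ^ 21 := by rw [hv.pow]; exact pow_le_pow_left₀ hz10 hz1 _
  have hl2 : v (z2 ^ 21) ≤ Z ^ 21 := by rw [hv.pow]; exact pow_le_pow_left₀ hz20 hz2 _
  have hh0le : v (hh0 s (z1 ^ 21) (z2 ^ 21)) ≤ (Z ^ 21) ^ 3 := hv.hh0_le hvs.le hl1 hl2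
  have hh1le : v (hh1 s (z1 ^ 21) (z2 ^ 21)) ≤ (Z ^ 21) ^ 3 := hv.hh1_le hvs.le hl1 hl2
  -- v N ^ 3 ≤ 8 ^ 6
  have hN3 : v N ^ 3 ≤ 8 ^ 6 := by
    have hZ63 : (0 : ℝ) < Z ^ 63 := by positivity
    rcases max_eq_cases (v z1) (v z2) with ⟨h, _⟩ | ⟨h, _⟩
    · have h5 : N ^ 3 * z1 ^ 63 = hh0 s (z1 ^ 21) (z2 ^ 21) * P := by
        linear_combination -hu0
      have h6 : v N ^ 3 * Z ^ 63 ≤ 8 ^ 6 * Z ^ 63 := by
        have h7 := congrArg v h5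
        rw [hv.mul, hv.pow, hv.pow, hv.mul, h, ← hZ12] at h7
        rw [h7]
        calc v (hh0 s (z1 ^ 21) (z2 ^ 21)) * v P ≤ (Z ^ 21) ^ 3 * 8 ^ 6 := by
              have := hv.nonneg P
              gcongr
          _ = 8 ^ 6 * Z ^ 63 := by ring
      exact le_of_mul_le_mul_right h6 hZ63
    · have h5 : N ^ 3 * z2 ^ 63 = hh1 s (z1 ^ 21) (z2 ^ 21) * P := by
        linear_combination -hu1
      have h6 : v N ^ 3 * Z ^ 63 ≤ 8 ^ 6 * Z ^ 63 := by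
        have h7 := congrArg v h5
        rw [hv.mul, hv.pow, hv.pow, hv.mul, h, ← hZ12] at h7
        rw [h7]
        calc v (hh1 s (z1 ^ 21) (z2 ^ 21)) * v P ≤ (Z ^ 21) ^ 3 * 8 ^ 6 := by
              have := hv.nonneg P
              gcongr
          _ = 8 ^ 6 * Z ^ 63 := by ring
      exact le_of_mul_le_mul_right h6 hZ63
  have hsmall : v N ^ 3 * Z ^ 54 < 1 := by
    calc v N ^ 3 * Z ^ 54 ≤ 8 ^ 6 * ((1 / 2) ^ 20) ^ 54 := by gcongr
      _ < 1 := by norm_num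
  have hXlt : v (th s * X) < 1 := by
    rw [hthX]
    calc v X ≤ (v N * Z ^ 18) ^ 3 := hXle
      _ = v N ^ 3 * Z ^ 54 := by ring
      _ < 1 := hsmall
  have hPne : P ≠ 0 := hv.S6_ne_zero hXlt
  have hl4 : (z1 ^ 21 + s * z2 ^ 21) ^ 6 * P = 0 := by
    have hw := hh_wedge s (z1 ^ 21) (z2 ^ 21)
    linear_combination (-P) * hw + z2 ^ 63 * hu0 - z1 ^ 63 * hu1
  have hl4' : z1 ^ 21 + s * z2 ^ 21 = 0 := by
    rcases mul_eq_zero.mp hl4 with h | h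
    · exact pow_eq_zero_iff (by norm_num) |>.mp h
    · exact absurd h hPne
  have h4 : (0 : L) ^ 21 = z1 ^ 21 + s * z2 ^ 21 := by rw [hl4']; simp
  obtain ⟨N3, c1, c2, c3⟩ := exists_N3 h4 (hv.rel4 hs h4) hne
  have c3' : s * (z3 ^ 20 * N) = -(z1 * z2) := by
    have : (0 : L) ^ 20 = 0 := by simp
    rw [this, zero_mul] at c3
    rw [n3]
    linear_combination -c3
  have hvz : v z1 = v z2 := by
    have h5 : z1 ^ 21 = -(s * z2 ^ 21) := by linear_combination hl4'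
    have h6 := congrArg v h5
    rw [hv.neg, hv.mul, hv.pow, hv.pow, hvs, one_mul] at h6
    exact pow_eq_of_pow21 hz10 hz20 h6
  have hvz3 : v z3 = v z2 := by
    have h5 : z3 ^ 21 = (1 - s) * z2 ^ 21 := by linear_combination h3 + hl4'
    have h6 := congrArg v h5
    rw [hv.mul, hv.pow, hv.pow, hv1s, one_mul] at h6
    exact pow_eq_of_pow21 hz30 hz20 h6
  have hvz2 : v z2 = Z := by rw [hZ12, hvz, max_self]
  have h7 := congrArg v c3'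
  rw [hv.mul, hv.mul, hv.neg, hv.mul, hv.pow, hvs, hvz, hvz3, hvz2, one_mul] at h7
  have h8 : v N * Z ^ 18 = 1 := by
    have hZ2 : (0 : ℝ) < Z * Z := by positivity
    apply mul_left_cancel₀ hZ2.ne'
    calc Z * Z * (v N * Z ^ 18) = Z ^ 20 * v N := by ring
      _ = Z * Z := h7
      _ = Z * Z * 1 := by ring
  have h9 : v N ^ 3 * Z ^ 54 = 1 := by
    calc v N ^ 3 * Z ^ 54 = (v N * Z ^ 18) ^ 3 := by ring
      _ = 1 := by rw [h8]; norm_num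
  linarith

end Pool.Agent.Helper26.DC
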