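import Pool.Agent.Helper26.DC.Iso4

/-!
The main case of the isolation theorem.
-/

set_option autoImplicit false

namespace Pool.Agent.Helper26.DC

variable {L : Type*} [Field L] {D : Derivation ℤ L L} {v : L → ℝ}

theorem W_smul (D : Derivation ℤ L L) (r a b : L) :
    W (r * a) (r * b) (D (r * a)) (D (r * b)) = r ^ 2 * W a b (D a) (D b) := by
  unfold W
  rw [Derivation.leibniz, Derivation.leibniz]
  simp only [smul_eq_mul]
  ring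

theorem W_smul' (D : Derivation ℤ L L) (r w a b : L) (hw : D w = 0) :
    W (r * a) (r * w * b) (D (r * a)) (D (r * w * b)) = r ^ 2 * w * W a b (D a) (D b) := by
  unfold W
  rw [Derivation.leibniz, Derivation.leibniz, Derivation.leibniz, hw]
  simp only [smul_eq_mul]
  ring

/-- Difference of seventh powers. -/
theorem VDF.pow7_sub_le (hv : VDF D v) {a b : L} {c : ℝ} (ha : v a ≤ c) (hb : v b ≤ c) :
    v (a ^ 7 - b ^ 7) ≤ v (b - a) * c ^ 6 := by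
  have ha0 := hv.nonneg a
  have hb0 := hv.nonneg b
  have hc : 0 ≤ c := ha0.trans ha
  have h : a ^ 7 - b ^ 7 = (b - a) * (-(a ^ 6 + a ^ 5 * b + a ^ 4 * b ^ 2 + a ^ 3 * b ^ 3
      + a ^ 2 * b ^ 4 + a * b ^ 5 + b ^ 6)) := by ring
  rw [h, hv.mul, hv.neg]
  have e : ∀ i j : ℕ, i + j = 6 → v (a ^ i * b ^ j) ≤ c ^ 6 := by
    intro i j hij
    rw [hv.mul, hv.pow, hv.pow]
    calc v a ^ i * v b ^ j ≤ c ^ i * c ^ j := by gcongr
      _ = c ^ 6 := by rw [← pow_add, hij]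
  have e1 : v (a * b ^ 5) ≤ c ^ 6 := by simpa using e 1 5 (by norm_num)
  have e5 : v (a ^ 5 * b) ≤ c ^ 6 := by simpa using e 5 1 (by norm_num)
  have e0 : v (b ^ 6) ≤ c ^ 6 := by simpa using e 0 6 (by norm_num)
  have e6 : v (a ^ 6) ≤ c ^ 6 := by simpa using e 6 0 (by norm_num)
  have h6 : v (a ^ 6 + a ^ 5 * b + a ^ 4 * b ^ 2 + a ^ 3 * b ^ 3
      + a ^ 2 * b ^ 4 + a * b ^ 5 + b ^ 6) ≤ c ^ 6 :=
    hv.add_le (hv.add_le (hv.add_le (hv.add_le (hv.add_le (hv.add_le e6 e5)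
      (e 4 2 (by norm_num))) (e 3 3 (by norm_num))) (e 2 4 (by norm_num))) e1) e0
  exact mul_le_mul_of_nonneg_left h6 (hv.nonneg _)

/-- The final numerical contradiction. -/
theorem numeric {A B C Y r : ℝ} (hB0 : 0 ≤ B) (hC0 : 0 ≤ C)
    (hY : 0 < Y) (hr : 0 < r) (hr1 : r ≤ (1 / 2) ^ 20)
    (hA : A * r ^ 7 ≤ 8 ^ 6 * Y ^ 441) (hB : B * Y ^ 63 ≤ 8 ^ 6 * r ^ 7)
    (hC : C * Y ^ 63 ≤ 8 * r) (h1 : 1 ≤ A * (B * C ^ 6)) : False := by
  have h2 : Y ^ 441 * r ^ 7 * 1 ≤ Y ^ 441 * r ^ 7 * (8 ^ 18 * r ^ 6) := by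
    calc Y ^ 441 * r ^ 7 * 1 ≤ Y ^ 441 * r ^ 7 * (A * (B * C ^ 6)) := by gcongr
      _ = (A * r ^ 7) * ((B * Y ^ 63) * (C * Y ^ 63) ^ 6) := by ring
      _ ≤ (8 ^ 6 * Y ^ 441) * ((8 ^ 6 * r ^ 7) * (8 * r) ^ 6) := by gcongr
      _ = Y ^ 441 * r ^ 7 * (8 ^ 18 * r ^ 6) := by ring
  have hpos : 0 < Y ^ 441 * r ^ 7 := by positivity
  have h3 : 1 ≤ 8 ^ 18 * r ^ 6 := le_of_mul_le_mul_left h2 hpos
  have h4 : 8 ^ 18 * r ^ 6 ≤ 8 ^ 18 * ((1 / 2) ^ 20) ^ 6 := by gcongr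
  have h5 : (8 : ℝ) ^ 18 * ((1 / 2) ^ 20) ^ 6 < 1 := by norm_num
  linarith

/-- Main case. -/
theorem VDF.case4 (hv : VDF D v) {s z1 z2 z3 y1 y2 y3 y4 : L} {Y Z : ℝ} (hs : D s = 21)
    (hvs : v s = 1) (hv1s : v (1 - s) = 1)
    (hz : z3 ^ 21 = z1 ^ 21 + z2 ^ 21)
    (h3 : y3 ^ 21 = y1 ^ 21 + y2 ^ 21) (h4 : y4 ^ 21 = y1 ^ 21 + s * y2 ^ 21)
    (hzy : z1 * y2 = z2 * y1)
    (hY : 0 < Y) (hY12 : Y = max (v y1) (v y2)) (hYs : Y ≤ (1 / 2) ^ 20)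
    (hZ : 0 < Z) (hZ12 : Z = max (v z1) (v z2)) (hZs : Z ≤ (1 / 2) ^ 20)
    (e0 : Ua0 s z1 z2 z3 (D z1) (D z2) (D z3) = Ub0 s y1 y2 y3 y4 (D y2) (D y3) (D y4))
    (e1 : Ua1 s z1 z2 z3 (D z1) (D z2) (D z3) = Ub1 s y1 y2 y3 y4 (D y1) (D y2) (D y3) (D y4)) :
    False := by
  have hch := hv.charZero
  have hne : y1 ≠ 0 ∨ y2 ≠ 0 := hv.max_pos_iff (hY12 ▸ hY)
  have hnez : z1 ≠ 0 ∨ z2 ≠ 0 := hv.max_pos_iff (hZ12 ▸ hZ)
  -- the ratio
  obtain ⟨r, hr1, hr2⟩ : ∃ r : L, z1 = r * y1 ∧ z2 = r * y2 := by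
    rcases hne with h | h
    · refine ⟨z1 / y1, by field_simp, ?_⟩
      field_simp
      rw [hzy]
    · refine ⟨z2 / y2, ?_, by field_simp⟩
      field_simp
      rw [← hzy]
  have hr0 : r ≠ 0 := by
    rintro rfl
    rcases hnez with h | h
    · exact h (by rw [hr1]; ring)
    · exact h (by rw [hr2]; ring)
  have hvr0 := hv.nonneg r
  have hrY : v r * Y = Z := by
    rw [hZ12, hY12, hr1, hr2, hv.mul, hv.mul, mul_max_of_nonneg _ _ hvr0]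
  have hz3 : z3 ^ 21 = (r * y3) ^ 21 := by
    rw [hz, hr1, hr2]
    linear_combination (-r ^ 21) * h3
  obtain ⟨w, hw1, hw2⟩ : ∃ w : L, z3 = r * w * y3 ∧ w ^ 21 = 1 := by
    by_cases hy3 : y3 = 0
    · refine ⟨1, ?_, one_pow _⟩
      rw [hy3, mul_zero] at hz3 ⊢
      have h5 : z3 ^ 21 = 0 := by rw [hz3]; simp
      exact pow_eq_zero_iff (by norm_num) |>.mp h5
    · have hry : r * y3 ≠ 0 := mul_ne_zero hr0 hy3
      refine ⟨z3 / (r * y3), by field_simp, ?_⟩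
      rw [div_pow, hz3, div_self (pow_ne_zero _ hry)]
  have hw0 : w ≠ 0 := by
    rintro rfl
    have : (0 : L) ^ 21 = 0 := by simp
    rw [this] at hw2
    exact zero_ne_one hw2
  have hDw : D w = 0 := by
    have h5 := congrArg D hw2
    rw [D_pow21, Derivation.map_one_eq_zero] at h5
    have h21 : (21 : L) ≠ 0 := by norm_num
    rcases mul_eq_zero.mp h5 with h | h
    · exact absurd h h21
    · rcases mul_eq_zero.mp h with h | h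
      · exact absurd h (pow_ne_zero _ hw0)
      · exact h
  have hvw : v w = 1 := by
    apply pow_eq_of_pow21 (hv.nonneg w) zero_le_one
    rw [← hv.pow, hw2, hv.map_one, one_pow]
  -- structures
  obtain ⟨hy3, hy4, N, Ps, n1, n2, n3, hkey, hu0, hu1, hN, hPs⟩ :=
    hv.ystruct hs hvs hv1s h3 h4 hY hY12
  obtain ⟨M, m1, m2, m3⟩ := exists_N hz (hv.rel3 hz) hnez
  obtain ⟨ha0, ha1⟩ := Ua_eq (s := s) m1 m2 m3
  have hMN : r ^ 18 * M = w * N := by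
    rcases hne with h | h
    · have h5 : W z2 z3 (D z2) (D z3) = r ^ 2 * w * W y2 y3 (D y2) (D y3) := by
        rw [hr2, hw1, W_smul' D r w y2 y3 hDw]
      have h6 : (r * y1) ^ 20 * M = r ^ 2 * w * (y1 ^ 20 * N) := by
        rw [← hr1, m1, h5, n1]; ring
      have h7 : r ^ 2 * y1 ^ 20 ≠ 0 := mul_ne_zero (pow_ne_zero _ hr0) (pow_ne_zero _ h)
      apply mul_left_cancel₀ h7
      linear_combination h6
    · have h5 : W z1 z3 (D z1) (D z3) = r ^ 2 * w * W y1 y3 (D y1) (D y3) := by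
        rw [hr1, hw1, W_smul' D r w y1 y3 hDw]
      have h6 : (r * y2) ^ 20 * M = r ^ 2 * w * (y2 ^ 20 * N) := by
        rw [← hr2, m2, h5, n2]
      have h7 : r ^ 2 * y2 ^ 20 ≠ 0 := mul_ne_zero (pow_ne_zero _ hr0) (pow_ne_zero _ h)
      apply mul_left_cancel₀ h7
      linear_combination h6
  have hXX : (z1 * z2 * z3) ^ 18 * M ^ 3 = (y1 * y2 * y3) ^ 18 * N ^ 3 := by
    rw [hr1, hr2, hw1]
    have h5 : (r ^ 18 * M) ^ 3 = (w * N) ^ 3 := by rw [hMN]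
    have h6 : w ^ 18 * (w * N) ^ 3 = N ^ 3 := by
      calc w ^ 18 * (w * N) ^ 3 = w ^ 21 * N ^ 3 := by ring
        _ = N ^ 3 := by rw [hw2, one_mul]
    calc (r * y1 * (r * y2) * (r * w * y3)) ^ 18 * M ^ 3
        = (y1 * y2 * y3) ^ 18 * (w ^ 18 * (r ^ 18 * M) ^ 3) := by ring
      _ = (y1 * y2 * y3) ^ 18 * N ^ 3 := by rw [h5, h6]
  rw [hXX] at ha0 ha1
  set X : L := (y1 * y2 * y3) ^ 18 * N ^ 3 with hX
  set P : L := S6 (th s * X) with hP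
  set Q : L := S6 (1 - th s * X) with hQ
  set h0 : L := hh0 s (z1 ^ 21) (z2 ^ 21) with hh0def
  set h1 : L := hh1 s (z1 ^ 21) (z2 ^ 21) with hh1def
  rw [ha0, hu0] at e0
  rw [ha1, hu1] at e1
  set b : L := r ^ 63 * M ^ 3 with hb
  set V : L := th s ^ 7 * y1 ^ 63 * (y2 * y3) ^ 126 * Q with hV
  have E0 : (b - Ps) * y1 ^ 63 = h0 * P := by
    have : M ^ 3 * z1 ^ 63 = b * y1 ^ 63 := by rw [hr1, hb]; ring
    linear_combination e0 - this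
  have E1 : (b - Ps) * y2 ^ 63 = h1 * P - V := by
    have : M ^ 3 * z2 ^ 63 = b * y2 ^ 63 := by rw [hr2, hb]; ring
    linear_combination e1 - this
  set A : L := y4 ^ 126 * P with hA
  -- the wedge equation
  have hwedge : r ^ 63 * A = -(V * y1 ^ 63) := by
    have hw := hh_wedge s (z1 ^ 21) (z2 ^ 21)
    have h5 : z1 ^ 21 + s * z2 ^ 21 = r ^ 21 * y4 ^ 21 := by
      rw [hr1, hr2, h4]; ring
    rw [h5, ← hh0def, ← hh1def] at hw
    have h6 : h0 * P * y2 ^ 63 - (h1 * P - V) * y1 ^ 63 = 0 := by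
      rw [← E0, ← E1]; ring
    apply mul_left_cancel₀ (pow_ne_zero 63 hr0)
    have h7 : (z2 ^ 21) ^ 3 = r ^ 63 * y2 ^ 63 := by rw [hr2]; ring
    have h8 : (z1 ^ 21) ^ 3 = r ^ 63 * y1 ^ 63 := by rw [hr1]; ring
    rw [h7, h8] at hw
    rw [hA]
    linear_combination (-P) * hw + r ^ 63 * h6
  have hb7 : b ^ 7 = r ^ 63 * N ^ 21 := by
    calc b ^ 7 = r ^ 63 * (r ^ 18 * M) ^ 21 := by rw [hb]; ring
      _ = r ^ 63 * (w ^ 21 * N ^ 21) := by rw [hMN]; ring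
      _ = r ^ 63 * N ^ 21 := by rw [hw2, one_mul]
  have hone : A * (Ps ^ 7 - b ^ 7) = 1 := by
    have hu := S6_unit (y4 ^ 18 * Ps)
    have hx1 : 1 - y4 ^ 18 * Ps = th s * X := by linear_combination -hkey
    have hx2 : y4 ^ 18 * Ps = 1 - th s * X := by linear_combination hkey
    have hu' : (y4 ^ 18 * Ps) ^ 7 * P + (th s * X) ^ 7 * Q = 1 := by
      rw [hx1] at hu
      rw [hx2] at hu
      rw [hx2]
      exact hu
    have h5 : (th s * X) ^ 7 * Q = V * y1 ^ 63 * N ^ 21 := by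
      rw [hX, hV]; ring
    rw [h5] at hu'
    have h6 : r ^ 63 * A * N ^ 21 = -(V * y1 ^ 63) * N ^ 21 := by rw [hwedge]
    rw [hb7]
    linear_combination hu' - h6
  -- sizes
  have hy1 : v y1 ≤ Y := by rw [hY12]; exact le_max_left _ _
  have hy2 : v y2 ≤ Y := by rw [hY12]; exact le_max_right _ _
  have hz1 : v z1 ≤ Z := by rw [hZ12]; exact le_max_left _ _
  have hz2 : v z2 ≤ Z := by rw [hZ12]; exact le_max_right _ _
  have hy10 := hv.nonneg y1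
  have hy20 := hv.nonneg y2
  have hy30 := hv.nonneg y3
  have hy40 := hv.nonneg y4
  have hz10 := hv.nonneg z1
  have hz20 := hv.nonneg z2
  have hN0 := hv.nonneg N
  have hPs0 := hv.nonneg Ps
  have hP0 := hv.nonneg P
  have hQ0 := hv.nonneg Q
  have hth := hv.th_le hvs hv1s
  have hX8 : v (th s * X) ≤ 8 := by
    rw [hv.mul, hth, one_mul]
    calc v X ≤ (v N * Y ^ 18) ^ 3 := hv.X_le hy1 hy2 hy3
      _ ≤ 2 ^ 3 := by gcongr
      _ = 8 := by norm_num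
  have hPle : v P ≤ 8 ^ 6 := hv.S6_le (by norm_num) hX8
  have hQle : v Q ≤ 8 ^ 6 :=
    hv.S6_le (by norm_num) (hv.sub_le (by rw [hv.map_one]; norm_num) hX8)
  have hl1 : v (z1 ^ 21) ≤ Z ^ 21 := by rw [hv.pow]; exact pow_le_pow_left₀ hz10 hz1 _
  have hl2 : v (z2 ^ 21) ≤ Z ^ 21 := by rw [hv.pow]; exact pow_le_pow_left₀ hz20 hz2 _
  have hh0le : v h0 ≤ (Z ^ 21) ^ 3 := hv.hh0_le hvs.le hl1 hl2
  have hh1le : v h1 ≤ (Z ^ 21) ^ 3 := hv.hh1_le hvs.le hl1 hl2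
  clear_value A V b h0 h1 P Q X
  have hVle : v V ≤ 8 ^ 6 * Y ^ 315 := by
    rw [hV, hv.mul, hv.mul, hv.mul, hv.pow, hv.pow, hv.pow, hv.mul, hth]
    calc 1 ^ 7 * v y1 ^ 63 * (v y2 * v y3) ^ 126 * v Q
        ≤ 1 ^ 7 * Y ^ 63 * (Y * Y) ^ 126 * 8 ^ 6 := by gcongr
      _ = 8 ^ 6 * Y ^ 315 := by ring
  set R : ℝ := max (Z ^ 9) (Y ^ 45) with hR
  have hRZ : Z ^ 9 ≤ R := le_max_left _ _
  have hRY : Y ^ 45 ≤ R := le_max_right _ _
  have hR0 : 0 < R := lt_of_lt_of_le (by positivity) hRZ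
  have hR1 : R ≤ (1 / 2) ^ 20 := by
    refine max_le ?_ ?_
    · calc Z ^ 9 ≤ ((1 / 2) ^ 20) ^ 9 := by gcongr
        _ ≤ (1 / 2) ^ 20 := by norm_num
    · calc Y ^ 45 ≤ ((1 / 2) ^ 20) ^ 45 := by gcongr
        _ ≤ (1 / 2) ^ 20 := by norm_num
  have hhP : ∀ h : L, v h ≤ (Z ^ 21) ^ 3 → v (h * P) ≤ 8 ^ 6 * R ^ 7 := by
    intro h hh
    have hh' := hv.nonneg h
    rw [hv.mul]
    calc v h * v P ≤ (Z ^ 21) ^ 3 * 8 ^ 6 := by gcongr
      _ = 8 ^ 6 * (Z ^ 9) ^ 7 := by ring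
      _ ≤ 8 ^ 6 * R ^ 7 := by gcongr
  have hVR : v V ≤ 8 ^ 6 * R ^ 7 := by
    calc v V ≤ 8 ^ 6 * Y ^ 315 := hVle
      _ = 8 ^ 6 * (Y ^ 45) ^ 7 := by ring
      _ ≤ 8 ^ 6 * R ^ 7 := by gcongr
  have hB : v (b - Ps) * Y ^ 63 ≤ 8 ^ 6 * R ^ 7 := by
    rcases max_eq_cases (v y1) (v y2) with ⟨h, _⟩ | ⟨h, _⟩
    · have h5 := congrArg v E0
      rw [hv.mul, hv.pow, h, ← hY12] at h5
      rw [h5]
      exact hhP h0 hh0le
    · have h5 := congrArg v E1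
      rw [hv.mul, hv.pow, h, ← hY12] at h5
      rw [h5]
      exact hv.sub_le (hhP h1 hh1le) hVR
  have hbv : v b = v r ^ 9 * v N ^ 3 := by
    have h5 : b = r ^ 9 * (w ^ 3 * N ^ 3) := by
      calc b = r ^ 9 * (r ^ 18 * M) ^ 3 := by rw [hb]; ring
        _ = r ^ 9 * (w ^ 3 * N ^ 3) := by rw [hMN]; ring
    rw [h5, hv.mul, hv.mul, hv.pow, hv.pow, hv.pow, hvw]
    ring
  have hC1 : v Ps * Y ^ 63 ≤ 8 * R := by
    calc v Ps * Y ^ 63 = (v Ps * Y ^ 18) * Y ^ 45 := by ring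
      _ ≤ 8 * R := by gcongr
  have hC2 : v b * Y ^ 63 ≤ 8 * R := by
    calc v b * Y ^ 63 = (v N * Y ^ 18) ^ 3 * (v r * Y) ^ 9 := by rw [hbv]; ring
      _ ≤ 2 ^ 3 * Z ^ 9 := by rw [hrY]; gcongr
      _ = 8 * Z ^ 9 := by norm_num
      _ ≤ 8 * R := by gcongr
  have hC : max (v Ps) (v b) * Y ^ 63 ≤ 8 * R := by
    rcases max_choice (v Ps) (v b) with h | h
    · rw [h]; exact hC1
    · rw [h]; exact hC2
  have hAv : v A * R ^ 7 ≤ 8 ^ 6 * Y ^ 441 := by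
    have hA0 := hv.nonneg A
    rcases max_choice (Z ^ 9) (Y ^ 45) with h | h
    · have h5 : v r ^ 63 * v A = v V * v y1 ^ 63 := by
        rw [← hv.pow, ← hv.mul, hwedge, hv.neg, hv.mul, hv.pow]
      calc v A * R ^ 7 = v A * (v r * Y) ^ 63 := by rw [hR, h, hrY]; ring
        _ = (v r ^ 63 * v A) * Y ^ 63 := by ring
        _ = v V * v y1 ^ 63 * Y ^ 63 := by rw [h5]
        _ ≤ (8 ^ 6 * Y ^ 315) * Y ^ 63 * Y ^ 63 := by
            have t1 : (0 : ℝ) ≤ Y ^ 63 := pow_nonneg hY.le 63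
            have t2 : (0 : ℝ) ≤ 8 ^ 6 * Y ^ 315 := (hv.nonneg V).trans hVle
            exact mul_le_mul_of_nonneg_right (mul_le_mul hVle (pow_le_pow_left₀ hy10 hy1 63)
              (pow_nonneg hy10 63) t2) t1
        _ = 8 ^ 6 * Y ^ 441 := by ring
    · calc v A * R ^ 7 = v A * Y ^ 315 := by rw [hR, h]; ring
        _ = (v y4 ^ 126 * v P) * Y ^ 315 := by rw [hA, hv.mul, hv.pow]
        _ ≤ (Y ^ 126 * 8 ^ 6) * Y ^ 315 := by gcongr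
        _ = 8 ^ 6 * Y ^ 441 := by ring
  have h1le : 1 ≤ v A * (v (b - Ps) * max (v Ps) (v b) ^ 6) := by
    have h5 := congrArg v hone
    rw [hv.mul, hv.map_one] at h5
    calc (1 : ℝ) = v A * v (Ps ^ 7 - b ^ 7) := h5.symm
      _ ≤ v A * (v (b - Ps) * max (v Ps) (v b) ^ 6) := by
        apply mul_le_mul_of_nonneg_left _ (hv.nonneg A)
        exact hv.pow7_sub_le (le_max_left _ _) (le_max_right _ _)
  exact numeric (hv.nonneg _) (le_max_of_le_left hPs0) hY hR0 hR1 hAv hB hC h1le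

end Pool.Agent.Helper26.DC
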