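import Mathlib

/-!
A valuation with values in an arbitrary ordered group, bounded by one, has a real valued
standard part with respect to an element `g < 1`.
-/

set_option autoImplicit false

namespace Pool.Agent.Helper26.DC

open Filter Topology

section RealPartAux

variable {Γ₀ : Type*} [LinearOrderedCommGroupWithZero Γ₀]

/-- The set of all `rho ^ (p / q)` with `a ^ q ≤ g ^ p`. -/
def rpSet (g : Γ₀) (rho : ℝ) (a : Γ₀) : Set ℝ :=
  {x | ∃ p q : ℕ, 0 < q ∧ a ^ q ≤ g ^ p ∧ x = rho ^ ((p : ℝ) / (q : ℝ))}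

/-- The standard part of `a` with respect to `g`. -/
noncomputable def rpN (g : Γ₀) (rho : ℝ) (a : Γ₀) : ℝ := sInf (rpSet g rho a)

variable {g : Γ₀} {rho : ℝ}

lemma rpSet_pos (hr0 : 0 < rho) {a : Γ₀} {x : ℝ} (hx : x ∈ rpSet g rho a) : 0 < x := by
  obtain ⟨p, q, _, _, rfl⟩ := hx
  exact Real.rpow_pos_of_pos hr0 _

lemma rpSet_bdd (hr0 : 0 < rho) (a : Γ₀) : BddBelow (rpSet g rho a) :=
  ⟨0, fun _ hx => (rpSet_pos hr0 hx).le⟩

lemma rpSet_one {a : Γ₀} (ha : a ≤ 1) : (1 : ℝ) ∈ rpSet g rho a :=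
  ⟨0, 1, one_pos, by simpa using ha, by simp⟩

lemma rpN_nonneg (hr0 : 0 < rho) (a : Γ₀) : 0 ≤ rpN g rho a :=
  Real.sInf_nonneg fun _ hx => (rpSet_pos hr0 hx).le

lemma rpN_le (hr0 : 0 < rho) {a : Γ₀} {p q : ℕ} (hq : 0 < q) (h : a ^ q ≤ g ^ p) :
    rpN g rho a ≤ rho ^ ((p : ℝ) / (q : ℝ)) :=
  csInf_le (rpSet_bdd hr0 a) ⟨p, q, hq, h, rfl⟩

lemma rpN_le_one (hr0 : 0 < rho) {a : Γ₀} (ha : a ≤ 1) : rpN g rho a ≤ 1 :=
  csInf_le (rpSet_bdd hr0 a) (rpSet_one ha)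

lemma rpN_mono (hr0 : 0 < rho) {a b : Γ₀} (hab : a ≤ b) (hb : b ≤ 1) :
    rpN g rho a ≤ rpN g rho b := by
  refine csInf_le_csInf (rpSet_bdd hr0 a) ⟨1, rpSet_one hb⟩ ?_
  rintro x ⟨p, q, hq, h, rfl⟩
  exact ⟨p, q, hq, (pow_le_pow_left₀ zero_le' hab q).trans h, rfl⟩

/-- If all powers of `g` dominate `a ^ m` then the standard part is zero. -/
lemma rpN_eq_zero (hr0 : 0 < rho) (hr1 : rho < 1) {a : Γ₀} {m : ℕ} (hm : 0 < m)
    (h : ∀ k : ℕ, a ^ m ≤ g ^ k) : rpN g rho a = 0 := by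
  refine le_antisymm ?_ (rpN_nonneg hr0 a)
  have ht : Tendsto (fun k : ℕ => rho ^ k) atTop (𝓝 0) :=
    tendsto_pow_atTop_nhds_zero_of_lt_one hr0.le hr1
  refine ge_of_tendsto ht (Eventually.of_forall fun k => ?_)
  have := rpN_le (rho := rho) hr0 hm (h (k * m))
  have hm' : (m : ℝ) ≠ 0 := by exact_mod_cast hm.ne'
  rw [show (((k * m : ℕ) : ℝ) / (m : ℝ)) = (k : ℝ) by push_cast; field_simp,
    Real.rpow_natCast] at this
  exact this

lemma exists_max_k {a : Γ₀} (ha : a ≤ 1) {m : ℕ} (h : ¬ ∀ k : ℕ, a ^ m ≤ g ^ k) :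
    ∃ k : ℕ, a ^ m ≤ g ^ k ∧ g ^ (k + 1) < a ^ m := by
  classical
  push_neg at h
  have h0 : ¬ (g ^ 0 < a ^ m) := by
    rw [pow_zero, not_lt]
    exact pow_le_one₀ zero_le' ha
  obtain ⟨k, hk⟩ : ∃ k, Nat.find h = k + 1 := by
    refine Nat.exists_eq_succ_of_ne_zero fun h1 => h0 ?_
    have := Nat.find_spec h
    rwa [h1] at this
  refine ⟨k, ?_, ?_⟩
  · have := Nat.find_min h (m := k) (by omega)
    exact not_lt.mp this
  · have := Nat.find_spec h
    rwa [hk] at this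

lemma rpN_mul_le (hr0 : 0 < rho) {a b : Γ₀} (ha : a ≤ 1) (hb : b ≤ 1) :
    rpN g rho (a * b) ≤ rpN g rho a * rpN g rho b := by
  have key : ∀ x ∈ rpSet g rho a, ∀ y ∈ rpSet g rho b, rpN g rho (a * b) ≤ x * y := by
    rintro x ⟨p, q, hq, h, rfl⟩ y ⟨r, s, hs, h', rfl⟩
    have h1 : (a * b) ^ (q * s) ≤ g ^ (p * s + r * q) := by
      calc (a * b) ^ (q * s) = (a ^ q) ^ s * (b ^ s) ^ q := by
            rw [mul_pow, pow_mul, mul_comm q s, pow_mul b]
        _ ≤ (g ^ p) ^ s * (g ^ r) ^ q :=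
            mul_le_mul' (pow_le_pow_left₀ zero_le' h s) (pow_le_pow_left₀ zero_le' h' q)
        _ = g ^ (p * s + r * q) := by rw [← pow_mul, ← pow_mul, ← pow_add]
    have h2 := rpN_le (rho := rho) hr0 (Nat.mul_pos hq hs) h1
    rw [← Real.rpow_add hr0]
    have hq' : (q : ℝ) ≠ 0 := by exact_mod_cast hq.ne'
    have hs' : (s : ℝ) ≠ 0 := by exact_mod_cast hs.ne'
    have : (((p * s + r * q : ℕ) : ℝ) / ((q * s : ℕ) : ℝ)) = (p : ℝ) / q + (r : ℝ) / s := by
      push_cast; field_simp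
    rwa [this] at h2
  have k1 : ∀ x ∈ rpSet g rho a, rpN g rho (a * b) ≤ x * rpN g rho b := by
    intro x hx
    have hx0 := rpSet_pos hr0 hx
    have : rpN g rho (a * b) / x ≤ rpN g rho b := by
      refine le_csInf ⟨1, rpSet_one hb⟩ fun y hy => ?_
      rw [div_le_iff₀' hx0]
      exact key x hx y hy
    rwa [div_le_iff₀' hx0] at this
  rcases (rpN_nonneg (g := g) hr0 b).eq_or_lt with h0 | h0
  · have := k1 1 (rpSet_one ha)
    rw [← h0] at this ⊢
    simpa using this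
  · have : rpN g rho (a * b) / rpN g rho b ≤ rpN g rho a := by
      refine le_csInf ⟨1, rpSet_one ha⟩ fun x hx => ?_
      rw [div_le_iff₀ h0]
      exact k1 x hx
    rwa [div_le_iff₀ h0] at this

lemma le_rpN_mul (hg0 : 0 < g) (hg1 : g < 1) (hr0 : 0 < rho) (hr1 : rho < 1) {a b : Γ₀}
    (ha : a ≤ 1) (hb : b ≤ 1) :
    rpN g rho a * rpN g rho b ≤ rpN g rho (a * b) := by
  refine le_csInf ⟨1, rpSet_one (mul_le_one' ha hb)⟩ ?_
  rintro x ⟨p, q, hq, h, rfl⟩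
  have hq' : (0 : ℝ) < q := by exact_mod_cast hq
  have key : ∀ n : ℕ, 0 < n → rpN g rho a * rpN g rho b ≤
      rho ^ ((p : ℝ) / q - 2 / (q * n)) := by
    intro n hn
    have hn' : (0 : ℝ) < n := by exact_mod_cast hn
    have hm : 0 < q * n := Nat.mul_pos hq hn
    have hR : 0 ≤ rho ^ ((p : ℝ) / q - 2 / (q * n)) := Real.rpow_nonneg hr0.le _
    by_cases hA : ∀ k : ℕ, a ^ (q * n) ≤ g ^ k
    · rw [rpN_eq_zero hr0 hr1 hm hA, zero_mul]; exact hR
    by_cases hB : ∀ k : ℕ, b ^ (q * n) ≤ g ^ k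
    · rw [rpN_eq_zero hr0 hr1 hm hB, mul_zero]; exact hR
    obtain ⟨k, hk1, hk2⟩ := exists_max_k ha hA
    obtain ⟨l, hl1, hl2⟩ := exists_max_k hb hB
    have h1 : g ^ (k + 1 + (l + 1)) < (a * b) ^ (q * n) := by
      rw [pow_add, mul_pow]
      have hgk : 0 < g ^ (l + 1) := pow_pos hg0 _
      have hak : 0 < a ^ (q * n) := lt_of_le_of_lt zero_le' hk2
      calc g ^ (k + 1) * g ^ (l + 1) < a ^ (q * n) * g ^ (l + 1) :=
            mul_lt_mul_of_pos_right hk2 hgk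
        _ < a ^ (q * n) * b ^ (q * n) := mul_lt_mul_of_pos_left hl2 hak
    have h2 : (a * b) ^ (q * n) ≤ g ^ (p * n) := by
      rw [pow_mul, pow_mul]
      exact pow_le_pow_left₀ zero_le' h n
    have h3 : p * n < k + 1 + (l + 1) := by
      by_contra hc
      exact absurd (lt_of_lt_of_le h1 h2)
        (not_lt.mpr (pow_le_pow_right_of_le_one' hg1.le (not_lt.mp hc)))
    have ea := rpN_le (rho := rho) hr0 hm hk1
    have eb := rpN_le (rho := rho) hr0 hm hl1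
    calc rpN g rho a * rpN g rho b
        ≤ rho ^ ((k : ℝ) / ((q * n : ℕ) : ℝ)) * rho ^ ((l : ℝ) / ((q * n : ℕ) : ℝ)) :=
          mul_le_mul ea eb (rpN_nonneg hr0 b) (Real.rpow_nonneg hr0.le _)
      _ = rho ^ ((k : ℝ) / ((q * n : ℕ) : ℝ) + (l : ℝ) / ((q * n : ℕ) : ℝ)) := by
          rw [Real.rpow_add hr0]
      _ ≤ rho ^ ((p : ℝ) / q - 2 / (q * n)) := by
          refine Real.rpow_le_rpow_of_exponent_ge hr0 hr1.le ?_
          push_cast
          have hk : ((p : ℝ) * n) ≤ k + l + 2 := by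
            have : p * n ≤ k + l + 2 := by omega
            exact_mod_cast this
          have e1 : (p : ℝ) / q - 2 / (q * n) = (p * n - 2) / (q * n) := by
            field_simp
          rw [← add_div, e1]
          exact div_le_div_of_nonneg_right (by linarith) (mul_pos hq' hn').le
  have ht : Tendsto (fun n : ℕ => rho ^ ((p : ℝ) / q - 2 / (q * n))) atTop
      (𝓝 (rho ^ ((p : ℝ) / q - 0))) := by
    refine ((Real.continuous_const_rpow hr0.ne').tendsto _).comp ?_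
    refine tendsto_const_nhds.sub ?_
    refine tendsto_const_nhds.div_atTop ?_
    exact Tendsto.const_mul_atTop hq' tendsto_natCast_atTop_atTop
  rw [sub_zero] at ht
  exact ge_of_tendsto ht ((eventually_gt_atTop 0).mono fun n hn => key n hn)

end RealPartAux

/-- Proof: `nu f` is the infimum of `(rho ^ p) ^ (1 / q)` over all naturals `p`, `q > 0` with
`w f ^ q ≤ g ^ p`. -/
theorem exists_real_part {R Γ₀ : Type*} [CommRing R] [LinearOrderedCommGroupWithZero Γ₀]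
    (w : Valuation R Γ₀) (hw : ∀ f, w f ≤ 1) (g : Γ₀) (hg0 : 0 < g) (hg1 : g < 1)
    (rho : ℝ) (hr0 : 0 < rho) (hr1 : rho < 1) :
    ∃ nu : R → ℝ, (∀ f, 0 ≤ nu f) ∧ (∀ f, nu f ≤ 1) ∧ (∀ f, w f = 0 → nu f = 0) ∧
      (∀ f, w f = 1 → nu f = 1) ∧ (∀ f h, nu (f * h) = nu f * nu h) ∧
      (∀ f h, nu (f + h) ≤ max (nu f) (nu h)) ∧ (∀ f, w f ≤ g → nu f ≤ rho) ∧
      (∀ f, w f = g → nu f = rho) := by
  have hle : ∀ a : Γ₀, a ≤ g → rpN g rho a ≤ rho := by
    intro a ha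
    have := rpN_le (g := g) (rho := rho) (a := a) (p := 1) (q := 1) hr0 one_pos (by simpa using ha)
    simpa using this
  refine ⟨fun f => rpN g rho (w f), fun f => rpN_nonneg hr0 _, fun f => rpN_le_one hr0 (hw f),
    ?_, ?_, ?_, ?_, fun f hf => hle _ hf, ?_⟩
  · intro f hf
    refine rpN_eq_zero hr0 hr1 (m := 1) one_pos fun k => ?_
    simp [hf]
  · intro f hf
    refine le_antisymm (rpN_le_one hr0 (hw f)) ?_
    refine le_csInf ⟨1, rpSet_one (hw f)⟩ ?_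
    rintro x ⟨p, q, hq, h, rfl⟩
    have hp : p = 0 := by
      by_contra hp
      rw [hf, one_pow] at h
      exact absurd (pow_lt_one₀ zero_le' hg1 hp) (not_lt.mpr h)
    simp [hp]
  · intro f h
    show rpN g rho (w (f * h)) = _
    rw [map_mul]
    exact le_antisymm (rpN_mul_le hr0 (hw f) (hw h))
      (le_rpN_mul hg0 hg1 hr0 hr1 (hw f) (hw h))
  · intro f h
    show rpN g rho (w (f + h)) ≤ max (rpN g rho (w f)) (rpN g rho (w h))
    have h1 : w (f + h) ≤ max (w f) (w h) := w.map_add f h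
    rcases le_max_iff.mp h1 with h2 | h2
    · exact (rpN_mono hr0 h2 (hw f)).trans (le_max_left _ _)
    · exact (rpN_mono hr0 h2 (hw h)).trans (le_max_right _ _)
  · intro f hf
    refine le_antisymm (hle _ hf.le) ?_
    refine le_csInf ⟨1, rpSet_one (hw f)⟩ ?_
    rintro x ⟨p, q, hq, h, rfl⟩
    have hpq : p ≤ q := by
      by_contra hc
      rw [hf] at h
      exact absurd (pow_lt_pow_right_of_lt_one₀ hg0 hg1 (not_le.mp hc)) (not_lt.mpr h)
    have hq' : (0 : ℝ) < q := by exact_mod_cast hq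
    calc rho = rho ^ (1 : ℝ) := (Real.rpow_one rho).symm
      _ ≤ rho ^ ((p : ℝ) / q) := by
        refine Real.rpow_le_rpow_of_exponent_ge hr0 hr1.le ?_
        rw [div_le_one hq']
        exact_mod_cast hpq

end Pool.Agent.Helper26.DC
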