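import Pool.Agent.Helper26.DC.Defs
import Pool.Agent.Helper26.DC.Deriv

/-!
From a multiplicative seminorm on a differential ring to a valued differential field.
-/

set_option autoImplicit false

namespace Pool.Agent.Helper26.DC

/-- an additive map with the Leibniz rule is a derivation over `ℤ` -/
theorem DC4_mk (L : Type) [CommRing L] (d : L → L) (h0 : d 0 = 0)
    (hadd : ∀ a b, d (a + b) = d a + d b) (hl : ∀ a b, d (a * b) = a * d b + b * d a) :
    ∃ d' : Derivation ℤ L L, ∀ a, d' a = d a :=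
  ⟨Derivation.mk' (AddMonoidHom.toIntLinearMap
      { toFun := d
        map_zero' := h0
        map_add' := hadd }) (fun a b => hl a b), fun _ => rfl⟩

theorem DC4_mkField (L : Type) [Field L] (d : L → L) (h0 : d 0 = 0)
    (hadd : ∀ a b, d (a + b) = d a + d b) (hl : ∀ a b, d (a * b) = a * d b + b * d a) :
    ∃ d' : Derivation ℤ L L, ∀ a, d' a = d a :=
  ⟨Derivation.mk' (AddMonoidHom.toIntLinearMap
      { toFun := d
        map_zero' := h0
        map_add' := hadd }) (fun a b => hl a b), fun _ => rfl⟩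

/-- the fraction field as an abstract field with a derivation -/
theorem DC4_exists_fraction (A : Type) [CommRing A] [IsDomain A] (D : Derivation ℤ A A) :
    ∃ (L : Type) (_ : Field L) (_ : Algebra A L) (_ : IsFractionRing A L) (d : Derivation ℤ L L),
      ∀ a, d (algebraMap A L a) = algebraMap A L (D a) := by
  obtain ⟨d, hd⟩ := exists_fractionRing_derivation A D
  obtain ⟨d', hd'⟩ := DC4_mkField (FractionRing A) (fun a => d a) d.map_zero
    (fun a b => d.map_add a b) (fun a b => d.leibniz a b)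
  exact ⟨FractionRing A, inferInstance, inferInstance, inferInstance, d',
    fun a => (hd' _).trans (hd a)⟩

/-- the quotient by the kernel as an abstract domain with a derivation and a valuation -/
theorem DC4_exists_quot {R : Type} [CommRing R] (D : Derivation ℤ R R) (mu : R → ℝ)
    (h0 : ∀ f, 0 ≤ mu f) (hzero : mu 0 = 0) (hone : mu 1 = 1)
    (hmul : ∀ f h, mu (f * h) = mu f * mu h) (hadd : ∀ f h, mu (f + h) ≤ max (mu f) (mu h))
    (hder : ∀ f, mu (D f) ≤ 2 * mu f) :
    ∃ (Q : Type) (_ : CommRing Q) (_ : IsDomain Q) (p : R →+* Q) (d1 : Derivation ℤ Q Q)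
      (v1 : Valuation Q NNReal), Function.Surjective p ∧ (∀ f, d1 (p f) = p (D f)) ∧
        (∀ f, ((v1 (p f) : NNReal) : ℝ) = mu f) ∧ ∀ q, v1 q = 0 → q = 0 := by
  classical
  let v0 : Valuation R NNReal :=
    { toFun := fun f => ⟨mu f, h0 f⟩
      map_zero' := by
        apply NNReal.eq
        exact hzero
      map_one' := by
        apply NNReal.eq
        exact hone
      map_mul' := fun a b => by
        apply NNReal.eq
        exact hmul a b
      map_add_le_max' := fun a b => by
        rcases le_max_iff.1 (hadd a b) with h | h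
        · exact le_max_of_le_left h
        · exact le_max_of_le_right h }
  have hv0 : ∀ f, ((v0 f : NNReal) : ℝ) = mu f := fun f => rfl
  let I : Ideal R := v0.supp
  have hmem : ∀ f, f ∈ I ↔ mu f = 0 := by
    intro f
    rw [show f ∈ I ↔ v0 f = 0 from Valuation.mem_supp_iff v0 f, ← hv0 f]
    exact NNReal.coe_eq_zero.symm
  have hprime : I.IsPrime := inferInstanceAs (Ideal.IsPrime v0.supp)
  let v1 : Valuation (R ⧸ I) NNReal := v0.onQuot (le_refl v0.supp)
  have hv1 : ∀ f : R, v1 (Ideal.Quotient.mk I f) = v0 f := fun f => rfl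
  have hv1z : ∀ q : R ⧸ I, v1 q = 0 → q = 0 := by
    intro q hq
    obtain ⟨f, rfl⟩ := Ideal.Quotient.mk_surjective q
    rw [hv1] at hq
    rw [Ideal.Quotient.eq_zero_iff_mem, hmem, ← hv0, hq]
    rfl
  have hsurj : Function.Surjective (Ideal.Quotient.mkₐ ℤ I) := Ideal.Quotient.mk_surjective
  have hd1 : ∀ x : R, (Ideal.Quotient.mkₐ ℤ I) x = 0 → (Ideal.Quotient.mkₐ ℤ I) (D x) = 0 := by
    intro x hx
    have h1 : x ∈ I := Ideal.Quotient.eq_zero_iff_mem.1 hx
    have h2 : mu x = 0 := (hmem x).1 h1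
    have h3 : mu (D x) = 0 := le_antisymm (by have := hder x; rw [h2] at this; simpa using this)
      (h0 _)
    exact Ideal.Quotient.eq_zero_iff_mem.2 ((hmem _).2 h3)
  let e := Derivation.liftOfSurjective hsurj hd1
  have he : ∀ x : R, e (Ideal.Quotient.mk I x) = Ideal.Quotient.mk I (D x) := fun x =>
    Derivation.liftOfSurjective_apply hsurj hd1 x
  obtain ⟨d', hd'⟩ := DC4_mk (R ⧸ I) (fun a => e a) e.map_zero
    (fun a b => e.map_add a b) (fun a b => e.leibniz a b)
  exact ⟨R ⧸ I, inferInstance, inferInstance, Ideal.Quotient.mk I, d', v1,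
    Ideal.Quotient.mk_surjective, fun f => (hd' _).trans (he f), fun f => hv0 f, hv1z⟩

/-- `L` is the fraction field of `R` modulo the prime differential ideal `{mu = 0}`. -/
theorem exists_vdf {R : Type} [CommRing R] (D : Derivation ℤ R R) (mu : R → ℝ)
    (h0 : ∀ f, 0 ≤ mu f) (hzero : mu 0 = 0) (hone : mu 1 = 1)
    (hmul : ∀ f h, mu (f * h) = mu f * mu h) (hadd : ∀ f h, mu (f + h) ≤ max (mu f) (mu h))
    (hder : ∀ f, mu (D f) ≤ 2 * mu f) (hnat : ∀ n : ℕ, n ≠ 0 → mu (n : R) = 1) :
    ∃ (L : Type) (_ : Field L) (d : Derivation ℤ L L) (v : L → ℝ) (phi : R →+* L),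
      VDF d v ∧ (∀ f, phi (D f) = d (phi f)) ∧ ∀ f, v (phi f) = mu f := by
  classical
  obtain ⟨Q, hQ1, hQ2, p, d1, v1, hsurj, hd1a, hv1, hv1z⟩ :=
    DC4_exists_quot D mu h0 hzero hone hmul hadd hder
  have hS : nonZeroDivisors Q ≤ v1.supp.primeCompl := by
    intro q hq hq'
    have h1 : v1 q = 0 := (Valuation.mem_supp_iff v1 q).1 hq'
    exact nonZeroDivisors.ne_zero hq (hv1z q h1)
  obtain ⟨L, hL1, hL2, hL3, d, hd⟩ := DC4_exists_fraction Q d1
  let v2 : Valuation L NNReal := v1.extendToLocalization hS L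
  have hv2 : ∀ q : Q, v2 (algebraMap Q L q) = v1 q := fun q =>
    Valuation.extendToLocalization_apply_map_apply v1 hS L q
  have hq1 : ∀ q : Q, ((v1 (d1 q) : NNReal) : ℝ) ≤ 2 * ((v1 q : NNReal) : ℝ) := by
    intro q
    obtain ⟨f, rfl⟩ := hsurj q
    rw [hd1a, hv1, hv1]
    exact hder f
  refine ⟨L, hL1, d, fun a => ((v2 a : NNReal) : ℝ), (algebraMap Q L).comp p, ?_, ?_, ?_⟩
  · refine ⟨fun a => NNReal.coe_nonneg _, ?_, ?_, ?_, ?_, ?_, ?_, ?_⟩
    · rw [map_zero]; rfl
    · rw [map_one]; rfl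
    · intro a ha
      rw [NNReal.coe_pos]
      exact pos_iff_ne_zero.2 ((Valuation.ne_zero_iff v2).2 ha)
    · intro a b
      rw [map_mul, NNReal.coe_mul]
    · intro a b
      rw [← NNReal.coe_max, NNReal.coe_le_coe]
      exact v2.map_add a b
    · intro a
      obtain ⟨x, y, hy, hxy⟩ := IsFractionRing.div_surjective (A := Q) a
      have hy0 : (algebraMap Q L y) ≠ 0 := by
        intro h
        exact nonZeroDivisors.ne_zero hy
          ((IsFractionRing.injective Q L) (by rw [h, map_zero]))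
      have hay : a * algebraMap Q L y = algebraMap Q L x := by
        rw [← hxy]
        exact div_mul_cancel₀ _ hy0
      have h1 : d a * algebraMap Q L y =
          algebraMap Q L (d1 x) - a * algebraMap Q L (d1 y) := by
        have h2 := congrArg d hay
        rw [Derivation.leibniz, hd, hd, smul_eq_mul, smul_eq_mul] at h2
        rw [← h2]
        ring
      have hvy : (0 : ℝ) < ((v2 (algebraMap Q L y) : NNReal) : ℝ) := by
        rw [NNReal.coe_pos]
        exact pos_iff_ne_zero.2 ((Valuation.ne_zero_iff v2).2 hy0)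
      have h3 : ((v2 a : NNReal) : ℝ) * ((v2 (algebraMap Q L y) : NNReal) : ℝ) =
          ((v2 (algebraMap Q L x) : NNReal) : ℝ) := by
        rw [← hay, map_mul, NNReal.coe_mul]
      have h4 : ((v2 (d a) : NNReal) : ℝ) * ((v2 (algebraMap Q L y) : NNReal) : ℝ) ≤
          max ((v2 (algebraMap Q L (d1 x)) : NNReal) : ℝ)
            (((v2 a : NNReal) : ℝ) * ((v2 (algebraMap Q L (d1 y)) : NNReal) : ℝ)) := by
        rw [← NNReal.coe_mul, ← NNReal.coe_mul, ← map_mul, ← map_mul, h1, ← NNReal.coe_max,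
          NNReal.coe_le_coe]
        exact v2.map_sub _ _
      have h5 : ((v2 (algebraMap Q L (d1 x)) : NNReal) : ℝ) ≤
          2 * ((v2 (algebraMap Q L x) : NNReal) : ℝ) := by
        rw [hv2, hv2]
        exact hq1 x
      have h6 : ((v2 (algebraMap Q L (d1 y)) : NNReal) : ℝ) ≤
          2 * ((v2 (algebraMap Q L y) : NNReal) : ℝ) := by
        rw [hv2, hv2]
        exact hq1 y
      have h7 : max ((v2 (algebraMap Q L (d1 x)) : NNReal) : ℝ)
            (((v2 a : NNReal) : ℝ) * ((v2 (algebraMap Q L (d1 y)) : NNReal) : ℝ)) ≤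
          (2 * ((v2 a : NNReal) : ℝ)) * ((v2 (algebraMap Q L y) : NNReal) : ℝ) := by
        refine max_le ?_ ?_
        · rw [mul_assoc, h3]
          exact h5
        · have h8 := mul_le_mul_of_nonneg_left h6 (NNReal.coe_nonneg (v2 a))
          linarith
      exact le_of_mul_le_mul_right (le_trans h4 h7) hvy
    · intro n hn
      have h1 : ((n : ℕ) : L) = algebraMap Q L (p (n : R)) := by
        rw [map_natCast, map_natCast]
      rw [h1, hv2, hv1]
      exact hnat n hn
  · intro f
    rw [RingHom.comp_apply, RingHom.comp_apply, hd, hd1a]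
  · intro f
    change ((v2 (algebraMap Q L (p f)) : NNReal) : ℝ) = mu f
    rw [hv2, hv1]

end Pool.Agent.Helper26.DC
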