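import Pool.Agent.Helper26.DC.Defs
import Pool.Agent.Helper26.DC.RealPart
import Pool.Agent.Helper26.DC.Gauss
import Pool.Agent.Helper26.DC.ToField

/-!
A prime strictly below the ideal of all variables has a small point with values in a valued
differential field.
-/

set_option autoImplicit false

namespace Pool.Agent.Helper26.DC

/-- There is a valuation ring of the fraction field of `R / q` dominating the local ring at the
ideal of all variables: `w f` is the value of the class of `f`. -/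
theorem exists_dominating_valuation {K σ : Type} [Field K]
    (q : Ideal (MvPolynomial σ K)) [q.IsPrime]
    (hq : q ≤ RingHom.ker (MvPolynomial.constantCoeff (R := K) (σ := σ))) :
    ∃ (Γ₀ : Type) (_ : LinearOrderedCommGroupWithZero Γ₀) (w : Valuation (MvPolynomial σ K) Γ₀),
      (∀ f, w f ≤ 1) ∧ (∀ f, w f = 0 ↔ f ∈ q) ∧
      (∀ f, w f < 1 ↔ MvPolynomial.constantCoeff f = 0) := by
  classical
  set R := MvPolynomial σ K with hR
  set F := FractionRing (R ⧸ q) with hF
  let φ : R →+* F := (algebraMap (R ⧸ q) F).comp (Ideal.Quotient.mk q)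
  have hφ0 : ∀ f : R, φ f = 0 ↔ f ∈ q := by
    intro f
    have h1 : φ f = algebraMap (R ⧸ q) F (Ideal.Quotient.mk q f) := rfl
    rw [h1, ← Ideal.Quotient.eq_zero_iff_mem]
    constructor
    · intro h
      exact (IsFractionRing.injective (R ⧸ q) F) (by rw [h, map_zero])
    · intro h
      rw [h, map_zero]
  set m : Ideal R := RingHom.ker (MvPolynomial.constantCoeff (R := K) (σ := σ)) with hm
  set A : Subring F := φ.range with hA
  set I : Ideal A := m.map φ.rangeRestrict with hI
  have hsurj : Function.Surjective φ.rangeRestrict := φ.rangeRestrict_surjective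
  have hIne : I ≠ ⊤ := by
    intro htop
    have h1 : (1 : A) ∈ I := by rw [htop]; trivial
    obtain ⟨x, hx, hx1⟩ := (Ideal.mem_map_iff_of_surjective _ hsurj).mp h1
    have h2 : φ x = 1 := by
      have := congrArg Subtype.val hx1
      simpa using this
    have h3 : φ (x - 1) = 0 := by rw [map_sub, h2, map_one, sub_self]
    have h4 : x - 1 ∈ m := hq ((hφ0 _).mp h3)
    have h5 : (1 : R) ∈ m := by
      have := m.sub_mem hx h4
      simpa using this
    rw [hm, RingHom.mem_ker, map_one] at h5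
    exact one_ne_zero h5
  obtain ⟨B, hAB, hIB⟩ := I.image_subset_nonunits_valuationSubring hIne
  have hle : ∀ f : R, B.valuation (φ f) ≤ 1 := by
    intro f
    rw [ValuationSubring.valuation_le_one_iff]
    exact hAB ⟨f, rfl⟩
  have hlt : ∀ f : R, MvPolynomial.constantCoeff f = 0 → B.valuation (φ f) < 1 := by
    intro f hf
    have h1 : φ f ∈ B.nonunits := by
      apply hIB
      exact ⟨φ.rangeRestrict f, Ideal.mem_map_of_mem _ (by rw [hm, RingHom.mem_ker]; exact hf), rfl⟩
    exact (B.mem_nonunits_iff).mp h1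
  refine ⟨B.ValueGroup, inferInstance, B.valuation.comap φ, ?_, ?_, ?_⟩
  · intro f
    exact hle f
  · intro f
    rw [Valuation.comap_apply, Valuation.zero_iff]
    exact hφ0 f
  · intro f
    rw [Valuation.comap_apply]
    constructor
    · intro h
      by_contra hc
      set c := MvPolynomial.constantCoeff f with hcdef
      have h1 : B.valuation (φ (MvPolynomial.C c)) * B.valuation (φ (MvPolynomial.C c⁻¹)) = 1 := by
        rw [← map_mul, ← map_mul, ← MvPolynomial.C_mul, mul_inv_cancel₀ hc, MvPolynomial.C_1,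
          map_one, map_one]
      have h2 : B.valuation (φ (MvPolynomial.C c)) = 1 := by
        refine le_antisymm (hle _) ?_
        calc (1 : B.ValueGroup) = B.valuation (φ (MvPolynomial.C c)) *
              B.valuation (φ (MvPolynomial.C c⁻¹)) := h1.symm
          _ ≤ B.valuation (φ (MvPolynomial.C c)) * 1 := mul_le_mul_right (hle _) _
          _ = _ := mul_one _
      have h3 : B.valuation (φ (f - MvPolynomial.C c)) < 1 := by
        apply hlt
        simp [hcdef]
      have h4 : φ (MvPolynomial.C c) = φ f - φ (f - MvPolynomial.C c) := by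
        rw [← map_sub]
        congr 1
        ring
      have h5 : B.valuation (φ (MvPolynomial.C c)) < 1 := by
        rw [h4]
        exact lt_of_le_of_lt (Valuation.map_sub _ _ _) (max_lt h h3)
      exact absurd h2 h5.ne
    · exact hlt f

theorem exists_point {K : Type} [Field K] [CharZero K] {n : ℕ}
    (d0 : Derivation ℤ K K)
    (D : Derivation ℤ (MvPolynomial (Fin n × ℕ) K) (MvPolynomial (Fin n × ℕ) K))
    (hDC : ∀ a : K, D (MvPolynomial.C a) = MvPolynomial.C (d0 a))
    (hDX : ∀ (j : Fin n) (k : ℕ), D (MvPolynomial.X (j, k)) = MvPolynomial.X (j, k + 1))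
    (q : Ideal (MvPolynomial (Fin n × ℕ) K)) [q.IsPrime]
    (hq : q ≤ RingHom.ker (MvPolynomial.constantCoeff (R := K) (σ := Fin n × ℕ)))
    (hne : ∃ (j : Fin n) (k : ℕ), (MvPolynomial.X (j, k) : MvPolynomial (Fin n × ℕ) K) ∉ q)
    (B : ℕ) :
    ∃ (L : Type) (_ : Field L) (d : Derivation ℤ L L) (v : L → ℝ)
      (phi : MvPolynomial (Fin n × ℕ) K →+* L),
      VDF d v ∧ (∀ f, phi (D f) = d (phi f)) ∧
      (∀ a : K, a ≠ 0 → v (phi (MvPolynomial.C a)) = 1) ∧
      (∀ j : Fin n, v (phi (MvPolynomial.X (j, 0))) ≤ (1 / 2) ^ B) ∧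
      (∃ j : Fin n, phi (MvPolynomial.X (j, 0)) ≠ 0) ∧
      (∀ f, (∀ k : ℕ, D^[k] f ∈ q) → phi f = 0) := by
  classical
  obtain ⟨Γ₀, instΓ, w, hw1, hw0, hwlt⟩ := exists_dominating_valuation q hq
  obtain ⟨j1, k1, hj1⟩ := hne
  set B' : ℕ := max B k1 with hB'
  -- the maximum of the values of the first variables
  have hnonempty : ((Finset.univ : Finset (Fin n)) ×ˢ Finset.range (B' + 1)).Nonempty := by
    refine ⟨(j1, 0), ?_⟩
    simp
  obtain ⟨p, hp, hpmax⟩ := Finset.exists_max_image
    ((Finset.univ : Finset (Fin n)) ×ˢ Finset.range (B' + 1))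
    (fun p : Fin n × ℕ => w (MvPolynomial.X p)) hnonempty
  set g : Γ₀ := w (MvPolynomial.X p) with hg
  have hgle : ∀ (j : Fin n) (k : ℕ), k ≤ B' → w (MvPolynomial.X (j, k)) ≤ g := by
    intro j k hk
    refine hpmax (j, k) ?_
    simp only [Finset.mem_product, Finset.mem_univ, Finset.mem_range, true_and]
    omega
  have hg0 : 0 < g := by
    have h1 : w (MvPolynomial.X (j1, k1)) ≠ 0 := fun h => hj1 ((hw0 _).mp h)
    exact lt_of_lt_of_le (zero_lt_iff.mpr h1) (hgle j1 k1 (le_max_right _ _))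
  have hg1 : g < 1 := by
    rw [hg, hwlt]
    simp
  have hrho0 : (0 : ℝ) < (1 / 2) ^ (B' + 1) := by positivity
  have hrho1 : ((1 : ℝ) / 2) ^ (B' + 1) < 1 := by
    refine pow_lt_one₀ (by norm_num) (by norm_num) (by omega)
  obtain ⟨nu, nu0, nu1, nuz, nuo, numul, nuadd, nule, nueq⟩ :=
    exists_real_part w hw1 g hg0 hg1 ((1 / 2) ^ (B' + 1)) hrho0 hrho1
  have hwC : ∀ a : K, a ≠ 0 → w (MvPolynomial.C a) = 1 := by
    intro a ha
    refine le_antisymm (hw1 _) (not_lt.mp ?_)
    intro h
    rw [hwlt] at h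
    simp at h
    exact ha h
  have nuC : ∀ a : K, a ≠ 0 → nu (MvPolynomial.C a) = 1 := fun a ha => nuo _ (hwC a ha)
  have nunat : ∀ m : ℕ, m ≠ 0 → nu (m : MvPolynomial (Fin n × ℕ) K) = 1 := by
    intro m hm
    have h1 : (m : MvPolynomial (Fin n × ℕ) K) = MvPolynomial.C (m : K) := by simp
    rw [h1]
    exact nuC _ (Nat.cast_ne_zero.mpr hm)
  obtain ⟨mu, mu0, mu1, muz, muo, mumul, muadd, muD, muge', mule'⟩ :=
    exists_gauss D nu nu0 nu1 (nuz 0 (map_zero w)) (nuo 1 (map_one w)) numul nuadd nunat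
  have muge : ∀ (f : MvPolynomial (Fin n × ℕ) K) (k : ℕ), nu (D^[k] f) ≤ 2 ^ k * mu f := muge'
  have mule : ∀ (f : MvPolynomial (Fin n × ℕ) K) (c : ℝ), 0 ≤ c →
      (∀ k : ℕ, nu (D^[k] f) ≤ 2 ^ k * c) → mu f ≤ c := mule'
  have muC : ∀ a : K, a ≠ 0 → mu (MvPolynomial.C a) = 1 := by
    intro a ha
    refine le_antisymm (mu1 _) ?_
    have h1 := muge (MvPolynomial.C a) 0
    rw [Function.iterate_zero, id, nuC a ha, pow_zero, one_mul] at h1
    exact h1
  have munat : ∀ m : ℕ, m ≠ 0 → mu (m : MvPolynomial (Fin n × ℕ) K) = 1 := by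
    intro m hm
    have h1 : (m : MvPolynomial (Fin n × ℕ) K) = MvPolynomial.C (m : K) := by simp
    rw [h1]
    exact muC _ (Nat.cast_ne_zero.mpr hm)
  obtain ⟨L, instL, d, v, phi, hv, hphiD, hphiv⟩ :=
    exists_vdf D mu mu0 muz muo mumul muadd muD munat
  have hiter : ∀ (j : Fin n) (k : ℕ), D^[k] (MvPolynomial.X (j, 0)) = MvPolynomial.X (j, k) := by
    intro j k
    induction k with
    | zero => rfl
    | succ k ih => rw [Function.iterate_succ_apply', ih, hDX]
  refine ⟨L, instL, d, v, phi, hv, hphiD, ?_, ?_, ?_, ?_⟩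
  · intro a ha
    rw [hphiv, muC a ha]
  · intro j
    rw [hphiv]
    refine mule _ _ (by positivity) ?_
    intro k
    rw [hiter]
    rcases le_or_gt k B' with hk | hk
    · have h1 : nu (MvPolynomial.X (j, k)) ≤ (1 / 2) ^ (B' + 1) := nule _ (hgle j k hk)
      have h2 : ((1 : ℝ) / 2) ^ (B' + 1) ≤ (1 / 2) ^ B := by
        refine pow_le_pow_of_le_one (by norm_num) (by norm_num) ?_
        have : B ≤ B' := le_max_left _ _
        omega
      have h3 : (1 : ℝ) ≤ 2 ^ k := one_le_pow₀ (by norm_num)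
      calc nu (MvPolynomial.X (j, k)) ≤ (1 / 2) ^ B := h1.trans h2
        _ = 1 * (1 / 2) ^ B := (one_mul _).symm
        _ ≤ 2 ^ k * (1 / 2) ^ B := mul_le_mul_of_nonneg_right h3 (by positivity)
    · have hBk : B ≤ k := (le_max_left B k1).trans hk.le
      have h3 : (1 : ℝ) ≤ 2 ^ k * (1 / 2) ^ B := by
        rw [one_div, inv_pow, ← div_eq_mul_inv, le_div_iff₀ (by positivity), one_mul]
        exact pow_le_pow_right₀ (by norm_num) hBk
      exact (nu1 _).trans h3
  · obtain ⟨j2, k2⟩ := p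
    refine ⟨j2, ?_⟩
    intro h
    have h1 : nu (MvPolynomial.X (j2, k2)) = (1 / 2) ^ (B' + 1) := nueq _ hg.symm
    have h2 := muge (MvPolynomial.X (j2, 0)) k2
    rw [hiter, h1, ← hphiv, h, hv.map_zero, mul_zero] at h2
    exact absurd h2 (not_le.mpr hrho0)
  · intro f hf
    by_contra hne
    have h1 := hv.pos _ hne
    rw [hphiv] at h1
    have h2 : mu f ≤ 0 := by
      refine mule f 0 le_rfl ?_
      intro k
      rw [mul_zero, nuz _ ((hw0 _).mpr (hf k))]
    exact absurd h2 (not_le.mpr h1)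

end Pool.Agent.Helper26.DC
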